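import Pool.Agent.MP_ca1109_lc.Xl.CI

/-!
# Case I with a second moment of the error
-/

namespace Pool.Agent.MP_ca1109_lc.Xa

open Finset Pool.Agent.H66 Pool.Agent.MP_ca1109_lc.Mpg Pool.Agent.MP_ca1109_lc.Agp
open Pool.Agent.MP_ca1109_lc.Dnf (Cube ch one Term)
open Pool.Agent.MP_ca1109_lc.Xp (Sp Bias xo fl Src mv)
open Pool.Agent.MP_ca1109_lc.Xl

variable {n : ℕ} {ι : Type} [DecidableEq ι]

/-- Finner's inequality for the squares. -/
theorem finner_exp24 {r : ℕ} (hr : 1 ≤ r) (T : ι → Term n) (M : Finset ι) (hM : Rd r T M) :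
    avg (fun x => ∏ m ∈ M, (1 + 24 * tm (T m).S (T m).a x)) ≤ Real.exp (25 ^ r * Xl.lam T M) := by
  rw [Xp.avg_E]
  have h := Xor.mgf r hr M T hM 24 (by norm_num)
  refine (le_of_eq ?_).trans (h.trans (Real.exp_le_exp.2 ?_))
  · rfl
  · have h0 : 0 ≤ Xl.lam T M := Finset.sum_nonneg fun _ _ => by positivity
    change ((1 + 24 : ℝ) ^ r - 1) / r * Xl.lam T M ≤ 25 ^ r * Xl.lam T M
    refine mul_le_mul_of_nonneg_right ?_ h0
    have h1 : (1 : ℝ) ≤ r := by exact_mod_cast hr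
    have h2 : (0 : ℝ) < 25 ^ r := by positivity
    rw [show (1 + 24 : ℝ) = 25 by norm_num, div_le_iff₀ (by linarith)]
    nlinarith

theorem tm_sq (S : Finset (Fin n)) (a x : Cube n) : tm S a x ^ 2 = tm S a x := by
  unfold tm
  by_cases h : Tr S a x
  · rw [Dnf.one_true h]; norm_num
  · rw [Dnf.one_false h]; norm_num

/-- The pointwise bound for one class. -/
theorem ci2_factor (T : ι → Term n) (M : Finset ι) (D : ℕ) (x : Cube n) :
    (1 + rem T M D x) ^ 2 ≤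
      1 + 3 * (1 / 2) ^ (D + 1) * ∏ m ∈ M, (1 + 24 * tm (T m).S (T m).a x) := by
  have h0 := rem_nonneg T M D x
  have h1 := rem_le T M D x
  set u : ℝ := (1 / 2) ^ (D + 1) with hu
  have hu0 : 0 < u := by positivity
  have hu1 : u ≤ 1 := pow_le_one₀ (by norm_num) (by norm_num)
  have htm : ∀ m, 0 ≤ tm (T m).S (T m).a x := fun m => Dnf.one_nonneg _
  set P : ℝ := ∏ m ∈ M, (1 + 4 * tm (T m).S (T m).a x) with hP
  have hP1 : 1 ≤ P := by
    have h := Finset.prod_le_prod (s := M) (f := fun _ => (1 : ℝ))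
      (g := fun m => 1 + 4 * tm (T m).S (T m).a x) (fun _ _ => zero_le_one)
      (fun m _ => by have := htm m; linarith)
    rw [Finset.prod_const_one] at h
    exact h
  have hPP : P ^ 2 = ∏ m ∈ M, (1 + 24 * tm (T m).S (T m).a x) := by
    rw [hP, ← Finset.prod_pow]
    refine Finset.prod_congr rfl fun m _ => ?_
    have := tm_sq (T m).S (T m).a x
    nlinarith
  rw [← hPP]
  have h2 : 1 + rem T M D x ≤ 1 + u * P := by linarith
  calc (1 + rem T M D x) ^ 2 ≤ (1 + u * P) ^ 2 := pow_le_pow_left₀ (by linarith) h2 2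
    _ = 1 + 2 * (u * P) + (u * P) ^ 2 := by ring
    _ ≤ 1 + 3 * u * P ^ 2 := by
      have h3 : u * P ≤ u * P ^ 2 := by
        refine mul_le_mul_of_nonneg_left ?_ hu0.le
        nlinarith
      have h4 : (u * P) ^ 2 ≤ u * P ^ 2 := by
        rw [mul_pow]
        refine mul_le_mul_of_nonneg_right ?_ (by positivity)
        nlinarith
      nlinarith

theorem ci2_avg_prod {r : ℕ} {T : ι → Term n} {M : Finset ι} (hM : Rd r T M) (S : Finset ℕ)
    (D : ℕ → ℕ) : avg (fun x => ∏ k ∈ S, (3 * (1 / 2) ^ (D k + 1) *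
        ∏ m ∈ cls T M k, (1 + 24 * tm (T m).S (T m).a x))) ≤
      ∏ k ∈ S, (3 * (1 / 2) ^ (D k + 1) * Real.exp (25 ^ (r + 1) * Xl.lam T (cls T M k))) := by
  classical
  have hUr : Rd (r + 1) T (M.filter fun m => Nat.log 2 (T m).S.card ∈ S) := fun i =>
    (Finset.card_le_card (Finset.filter_subset_filter _ (Finset.filter_subset _ _))).trans
      ((hM i).trans (Nat.le_succ r))
  have hfib : ∀ k ∈ S, (M.filter fun m => Nat.log 2 (T m).S.card ∈ S).filter
      (fun m => Nat.log 2 (T m).S.card = k) = cls T M k := by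
    intro k hk
    ext m
    simp only [cls, Finset.mem_filter]
    constructor
    · rintro ⟨⟨h1, _⟩, h3⟩
      exact ⟨h1, h3⟩
    · rintro ⟨h1, h3⟩
      exact ⟨⟨h1, h3 ▸ hk⟩, h3⟩
  have hmaps : ∀ m ∈ M.filter (fun m => Nat.log 2 (T m).S.card ∈ S), Nat.log 2 (T m).S.card ∈ S :=
    fun m hm => (Finset.mem_filter.1 hm).2
  have h1 : ∀ x, ∏ k ∈ S, (3 * (1 / 2 : ℝ) ^ (D k + 1) *
      ∏ m ∈ cls T M k, (1 + 24 * tm (T m).S (T m).a x)) =
      (∏ k ∈ S, (3 * (1 / 2 : ℝ) ^ (D k + 1))) *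
      ∏ m ∈ M.filter (fun m => Nat.log 2 (T m).S.card ∈ S), (1 + 24 * tm (T m).S (T m).a x) := by
    intro x
    rw [Finset.prod_mul_distrib (f := fun k => 3 * (1 / 2 : ℝ) ^ (D k + 1))]
    congr 1
    rw [← Finset.prod_fiberwise_of_maps_to hmaps]
    exact Finset.prod_congr rfl fun k hk => by rw [hfib k hk]
  calc avg (fun x => ∏ k ∈ S, (3 * (1 / 2 : ℝ) ^ (D k + 1) *
          ∏ m ∈ cls T M k, (1 + 24 * tm (T m).S (T m).a x)))
      = avg (fun x => (∏ k ∈ S, (3 * (1 / 2 : ℝ) ^ (D k + 1))) *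
          ∏ m ∈ M.filter (fun m => Nat.log 2 (T m).S.card ∈ S), (1 + 24 * tm (T m).S (T m).a x)) := by
        congr 1
        funext x
        exact h1 x
    _ = (∏ k ∈ S, (3 * (1 / 2 : ℝ) ^ (D k + 1))) *
          avg (fun x => ∏ m ∈ M.filter (fun m => Nat.log 2 (T m).S.card ∈ S), (1 + 24 * tm (T m).S (T m).a x)) :=
        avg_mul_left _ _
    _ ≤ (∏ k ∈ S, (3 * (1 / 2 : ℝ) ^ (D k + 1))) *
          Real.exp (25 ^ (r + 1) * Xl.lam T (M.filter fun m => Nat.log 2 (T m).S.card ∈ S)) :=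
        mul_le_mul_of_nonneg_left (finner_exp24 (by omega) _ _ hUr)
          (Finset.prod_nonneg fun _ _ => by positivity)
    _ = _ := by
        rw [Finset.prod_mul_distrib (f := fun k => 3 * (1 / 2 : ℝ) ^ (D k + 1)), ← Real.exp_sum,
          ← Finset.mul_sum]
        congr 3
        unfold Xl.lam
        rw [← Finset.sum_fiberwise_of_maps_to hmaps]
        exact Finset.sum_congr rfl fun k hk => by rw [hfib k hk]

theorem ci2_avg_R {r : ℕ} {T : ι → Term n} {M : Finset ι} (hM : Rd r T M) (U : Finset ℕ)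
    (D : ℕ → ℕ) : (avg fun x => (∏ k ∈ U, (1 + rem T (cls T M k) (D k) x)) ^ 2) ≤
      Real.exp (∑ k ∈ U, 3 * (1 / 2) ^ (D k + 1) * Real.exp (25 ^ (r + 1) * Xl.lam T (cls T M k))) := by
  classical
  have h0 : ∀ x : Cube n, (∏ k ∈ U, (1 + rem T (cls T M k) (D k) x)) ^ 2 ≤
      ∏ k ∈ U, (1 + 3 * (1 / 2) ^ (D k + 1) *
        ∏ m ∈ cls T M k, (1 + 24 * tm (T m).S (T m).a x)) := by
    intro x
    rw [← Finset.prod_pow]
    exact Finset.prod_le_prod (fun k _ => sq_nonneg _) fun k _ => ci2_factor T _ _ x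
  have h1 : (avg fun x : Cube n => ∏ k ∈ U, (1 + 3 * (1 / 2 : ℝ) ^ (D k + 1) *
        ∏ m ∈ cls T M k, (1 + 24 * tm (T m).S (T m).a x))) ≤
      ∏ k ∈ U, (1 + 3 * (1 / 2) ^ (D k + 1) * Real.exp (25 ^ (r + 1) * Xl.lam T (cls T M k))) := by
    have h2 : (fun x : Cube n => ∏ k ∈ U, (1 + 3 * (1 / 2 : ℝ) ^ (D k + 1) *
        ∏ m ∈ cls T M k, (1 + 24 * tm (T m).S (T m).a x))) =
        fun x => ∑ S ∈ U.powerset, ∏ k ∈ S, (3 * (1 / 2 : ℝ) ^ (D k + 1) *
        ∏ m ∈ cls T M k, (1 + 24 * tm (T m).S (T m).a x)) := by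
      funext x
      exact Finset.prod_one_add _
    rw [h2, avg_sum, Finset.prod_one_add]
    exact Finset.sum_le_sum fun S _ => ci2_avg_prod hM S D
  refine (avg_mono h0).trans (h1.trans ?_)
  rw [Real.exp_sum]
  refine Finset.prod_le_prod (fun k _ => by positivity) fun k _ => ?_
  have := Real.add_one_le_exp (3 * (1 / 2) ^ (D k + 1) * Real.exp (25 ^ (r + 1) * Xl.lam T (cls T M k)))
  linarith

/-! ## Case I -/

theorem caseI2 (r : ℕ) {ε : ℝ} (hε : 0 < ε) : ∃ C : ℕ, ∀ (n W a : ℕ) {ι : Type} [DecidableEq ι]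
    (T : ι → Term n) (M : Finset ι) (ζ : ι → ℂ), Fam r W T M → A1 T M ≤ a →
    (∀ m ∈ M, ‖ζ m‖ = 1) → ∃ (t : Cube n → ℂ) (R : Cube n → ℝ),
      (∀ x, ‖pr T ζ M x - t x‖ ≤ R x) ∧ avg R ≤ ε ∧ (avg fun x => (1 + R x) ^ 2) ≤ 30 ∧ Sp (2 ^ (C * (a + W + 1))) t ∧
      Sp (2 ^ (C * (a + W + 1))) (fun x => ((R x : ℝ) : ℂ)) := by
  classical
  obtain ⟨e, he⟩ := exists_pow_lt_of_lt_one (show (0 : ℝ) < min 1 (ε / 2) by positivity)
    (show (1 / 2 : ℝ) < 1 by norm_num)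
  have he1 : (1 / 2 : ℝ) ^ e ≤ 1 := he.le.trans (min_le_left _ _)
  have he2 : 2 * (1 / 2 : ℝ) ^ e ≤ ε := by
    have := he.le.trans (min_le_right _ _)
    linarith
  obtain ⟨c, hc⟩ : ∃ c : ℕ, c = 2 * 25 ^ (r + 1) := ⟨_, rfl⟩
  obtain ⟨C, hC⟩ : ∃ C : ℕ, C = 2 * c + 4 * (e + 2) + 8 := ⟨_, rfl⟩
  refine ⟨C + 5, fun n W a ι _ T M ζ hM ha hζ => ?_⟩
  obtain ⟨K, hK⟩ : ∃ K : ℕ, K = Nat.log 2 W := ⟨_, rfl⟩
  obtain ⟨D, hD⟩ : ∃ D : ℕ → ℕ, ∀ k, D k = ⌈(c : ℝ) * Xl.lam T (cls T M k)⌉₊ + e + (K - k) :=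
    ⟨fun k => ⌈(c : ℝ) * Xl.lam T (cls T M k)⌉₊ + e + (K - k), fun _ => rfl⟩
  obtain ⟨E, hE⟩ : ∃ E : ℕ, E = ∑ k ∈ Finset.range (K + 1), 2 ^ (k + 1) * (D k + 1) := ⟨_, rfl⟩
  have hEle : E ≤ C * (a + W + 1) := by
    rw [hE, hC]
    simp only [hD, hK]
    exact ci_E hM ha c e
  have hexp := ci_exp hM ha
  have hKW : K ≤ W := by
    have h1 := ci_log W
    have h2 : K < 2 ^ K := Nat.lt_two_pow_self
    rw [← hK] at h1
    omega
  have hsplit : (C + 5) * (a + W + 1) = C * (a + W + 1) + 5 * (a + W + 1) := by ring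
  refine ⟨fun x => ∏ k ∈ Finset.range (K + 1), trn T ζ (cls T M k) (D k) x,
    fun x => ∏ k ∈ Finset.range (K + 1), (1 + rem T (cls T M k) (D k) x) - 1, ?_, ?_, ?_, ?_, ?_⟩
  · intro x
    rw [ci_pr hM ζ x, ← hK]
    exact ci_prod_close (fun k _ => rem_nonneg _ _ _ _)
      (fun k _ => ci_norm_pr T ζ _ (fun m hm => hζ m (cls_sub T M k m hm)) x)
      (fun k _ => trn_close T ζ _ _ (fun m hm => hζ m (cls_sub T M k m hm)) x)
  · refine (ci_avg_R hM.rd _ D).trans ?_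
    have hs : ∑ k ∈ Finset.range (K + 1), (1 / 2 : ℝ) ^ (D k + 1) *
        Real.exp (5 ^ (r + 1) * Xl.lam T (cls T M k)) ≤ (1 / 2) ^ e := by
      refine (Finset.sum_le_sum fun k _ => ?_).trans (ci_geom K e)
      have hl := lam_nonneg' T (cls T M k)
      have h1 := ci_half (5 ^ (r + 1) * Xl.lam T (cls T M k))
        ⌈(c : ℝ) * Xl.lam T (cls T M k)⌉₊ (by
          have h2 := Nat.le_ceil ((c : ℝ) * Xl.lam T (cls T M k))
          have h3 : (c : ℝ) = 2 * 25 ^ (r + 1) := by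
            rw [hc]
            push_cast
            ring
          have h4 : (5 : ℝ) ^ (r + 1) ≤ 25 ^ (r + 1) := pow_le_pow_left₀ (by norm_num) (by norm_num) _
          rw [h3] at h2 ⊢
          nlinarith)
      calc (1 / 2 : ℝ) ^ (D k + 1) * Real.exp (5 ^ (r + 1) * Xl.lam T (cls T M k))
          = ((1 / 2 : ℝ) ^ ⌈(c : ℝ) * Xl.lam T (cls T M k)⌉₊ *
              Real.exp (5 ^ (r + 1) * Xl.lam T (cls T M k))) * (1 / 2) ^ (e + (K - k) + 1) := by
            rw [hD, show ⌈(c : ℝ) * Xl.lam T (cls T M k)⌉₊ + e + (K - k) + 1 =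
              ⌈(c : ℝ) * Xl.lam T (cls T M k)⌉₊ + (e + (K - k) + 1) by omega, pow_add]
            ring
        _ ≤ 1 * (1 / 2) ^ (e + (K - k) + 1) :=
            mul_le_mul_of_nonneg_right h1 (by positivity)
        _ = (1 / 2) ^ (e + (K - k) + 1) := one_mul _
    have h0 : 0 ≤ ∑ k ∈ Finset.range (K + 1), (1 / 2 : ℝ) ^ (D k + 1) *
        Real.exp (5 ^ (r + 1) * Xl.lam T (cls T M k)) := Finset.sum_nonneg fun k _ => by positivity
    have h1 := Real.abs_exp_sub_one_le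
      (x := ∑ k ∈ Finset.range (K + 1), (1 / 2 : ℝ) ^ (D k + 1) *
        Real.exp (5 ^ (r + 1) * Xl.lam T (cls T M k))) (by rw [abs_of_nonneg h0]; linarith)
    rw [abs_of_nonneg h0] at h1
    have h2 := le_abs_self (Real.exp (∑ k ∈ Finset.range (K + 1), (1 / 2 : ℝ) ^ (D k + 1) *
        Real.exp (5 ^ (r + 1) * Xl.lam T (cls T M k))) - 1)
    linarith
  · have hs : ∑ k ∈ Finset.range (K + 1), 3 * (1 / 2 : ℝ) ^ (D k + 1) *
        Real.exp (25 ^ (r + 1) * Xl.lam T (cls T M k)) ≤ 3 * (1 / 2) ^ e := by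
      have h5 : ∑ k ∈ Finset.range (K + 1), (1 / 2 : ℝ) ^ (D k + 1) *
          Real.exp (25 ^ (r + 1) * Xl.lam T (cls T M k)) ≤ (1 / 2) ^ e := by
        refine (Finset.sum_le_sum fun k _ => ?_).trans (ci_geom K e)
        have h1 := ci_half (25 ^ (r + 1) * Xl.lam T (cls T M k))
          ⌈(c : ℝ) * Xl.lam T (cls T M k)⌉₊ (by
            have h2 := Nat.le_ceil ((c : ℝ) * Xl.lam T (cls T M k))
            have h3 : (c : ℝ) = 2 * 25 ^ (r + 1) := by
              rw [hc]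
              push_cast
              ring
            rw [h3] at h2 ⊢
            linarith)
        calc (1 / 2 : ℝ) ^ (D k + 1) * Real.exp (25 ^ (r + 1) * Xl.lam T (cls T M k))
            = ((1 / 2 : ℝ) ^ ⌈(c : ℝ) * Xl.lam T (cls T M k)⌉₊ *
                Real.exp (25 ^ (r + 1) * Xl.lam T (cls T M k))) * (1 / 2) ^ (e + (K - k) + 1) := by
              rw [hD, show ⌈(c : ℝ) * Xl.lam T (cls T M k)⌉₊ + e + (K - k) + 1 =
                ⌈(c : ℝ) * Xl.lam T (cls T M k)⌉₊ + (e + (K - k) + 1) by omega, pow_add]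
              ring
          _ ≤ 1 * (1 / 2) ^ (e + (K - k) + 1) :=
              mul_le_mul_of_nonneg_right h1 (by positivity)
          _ = (1 / 2) ^ (e + (K - k) + 1) := one_mul _
      calc ∑ k ∈ Finset.range (K + 1), 3 * (1 / 2 : ℝ) ^ (D k + 1) *
            Real.exp (25 ^ (r + 1) * Xl.lam T (cls T M k))
          = 3 * ∑ k ∈ Finset.range (K + 1), (1 / 2 : ℝ) ^ (D k + 1) *
            Real.exp (25 ^ (r + 1) * Xl.lam T (cls T M k)) := by
            rw [Finset.mul_sum]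
            exact Finset.sum_congr rfl fun k _ => by ring
        _ ≤ _ := mul_le_mul_of_nonneg_left h5 (by norm_num)
    have h6 := ci2_avg_R hM.rd (Finset.range (K + 1)) D
    have h7 : (fun x : Cube n => (1 + (∏ k ∈ Finset.range (K + 1),
        (1 + rem T (cls T M k) (D k) x) - 1)) ^ 2) =
        fun x => (∏ k ∈ Finset.range (K + 1), (1 + rem T (cls T M k) (D k) x)) ^ 2 := by
      funext x
      ring
    rw [h7]
    refine h6.trans ?_
    have h8 : Real.exp (∑ k ∈ Finset.range (K + 1), 3 * (1 / 2 : ℝ) ^ (D k + 1) *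
        Real.exp (25 ^ (r + 1) * Xl.lam T (cls T M k))) ≤ Real.exp 3 := by
      apply Real.exp_le_exp.2
      linarith
    refine h8.trans ?_
    have h9 := Real.exp_one_lt_d9
    have h10 : Real.exp 3 = Real.exp 1 ^ 3 := by
      rw [← Real.exp_nat_mul]
      norm_num
    rw [h10]
    calc Real.exp 1 ^ 3 ≤ 2.7182818286 ^ 3 := pow_le_pow_left₀ (Real.exp_pos 1).le h9.le 3
      _ ≤ 30 := by norm_num
  · have hSp := Xp.Sp.prod (Finset.range (K + 1))
      (fun k => 2 ^ (2 ^ (k + 1) * D k) * Real.exp (2 * Xl.lam T (cls T M k)))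
      (fun k x => trn T ζ (cls T M k) (D k) x)
      (fun k _ => trn_sp T ζ _ _ _ (fun m hm => hζ m (cls_sub T M k m hm)) (cls_wd T M k))
    refine hSp.mono ?_
    rw [Finset.prod_mul_distrib, ← Real.exp_sum, ← Finset.mul_sum, hK, ci_sum_lam hM,
      Finset.prod_pow_eq_pow_sum, ← hK]
    calc (2 : ℝ) ^ (∑ k ∈ Finset.range (K + 1), 2 ^ (k + 1) * D k) * Real.exp (2 * Xl.lam T M)
        ≤ 2 ^ E * 2 ^ (3 * a) := by
          refine mul_le_mul (pow_le_pow_right₀ (by norm_num) ?_) hexp (Real.exp_pos _).le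
            (by positivity)
          rw [hE]
          exact Finset.sum_le_sum fun k _ => Nat.mul_le_mul_left _ (Nat.le_succ _)
      _ = 2 ^ (E + 3 * a) := (pow_add _ _ _).symm
      _ ≤ 2 ^ ((C + 5) * (a + W + 1)) := by
          refine pow_le_pow_right₀ (by norm_num) ?_
          rw [hsplit]
          omega
  · have h1 : ∀ k ∈ Finset.range (K + 1),
        Sp (1 + 2 ^ (2 ^ (k + 1) * (D k + 1)) * Real.exp (2 * Xl.lam T (cls T M k)))
          (fun x => 1 + ((rem T (cls T M k) (D k) x : ℝ) : ℂ)) := by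
      intro k _
      have := Xp.Sp.add (Xp.Sp.const (n := n) (1 : ℂ)) (rem_sp T (cls T M k) (D k) (2 ^ (k + 1)) (cls_wd T M k))
      simpa using this
    have h2 := Xp.Sp.prod (Finset.range (K + 1)) _ _ h1
    have h3 := Xp.Sp.add h2 (Xp.Sp.const (n := n) (-1 : ℂ))
    refine (h3.of_eq ?_).mono ?_
    · intro x
      push_cast
      ring
    · have h4 : ∏ k ∈ Finset.range (K + 1),
          (1 + 2 ^ (2 ^ (k + 1) * (D k + 1)) * Real.exp (2 * Xl.lam T (cls T M k))) ≤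
          ∏ k ∈ Finset.range (K + 1),
            (2 * (2 ^ (2 ^ (k + 1) * (D k + 1)) * Real.exp (2 * Xl.lam T (cls T M k)))) := by
        refine Finset.prod_le_prod (fun k _ => by positivity) fun k _ => ?_
        have h5 : (1 : ℝ) ≤ 2 ^ (2 ^ (k + 1) * (D k + 1)) := one_le_pow₀ (by norm_num)
        have h6 : (1 : ℝ) ≤ Real.exp (2 * Xl.lam T (cls T M k)) :=
          Real.one_le_exp (by have := lam_nonneg' T (cls T M k); linarith)
        have h7 := one_le_mul_of_one_le_of_one_le h5 h6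
        linarith
      rw [Finset.prod_mul_distrib, Finset.prod_mul_distrib, ← Real.exp_sum, ← Finset.mul_sum,
        Finset.prod_pow_eq_pow_sum, ← hE, Finset.prod_const, Finset.card_range, hK,
        ci_sum_lam hM, ← hK] at h4
      have h8 : (2 : ℝ) ^ (K + 1) * (2 ^ E * Real.exp (2 * Xl.lam T M)) ≤
          2 ^ (K + 1 + E + 3 * a) := by
        calc (2 : ℝ) ^ (K + 1) * (2 ^ E * Real.exp (2 * Xl.lam T M))
            ≤ 2 ^ (K + 1) * (2 ^ E * 2 ^ (3 * a)) := by gcongr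
          _ = 2 ^ (K + 1 + E + 3 * a) := by
              rw [← pow_add, ← pow_add]
              congr 1
              omega
      have h9 : (1 : ℝ) ≤ 2 ^ (K + 1 + E + 3 * a) := one_le_pow₀ (by norm_num)
      have h10 : (2 : ℝ) ^ (K + 1 + E + 3 * a + 1) ≤ 2 ^ ((C + 5) * (a + W + 1)) := by
        refine pow_le_pow_right₀ (by norm_num) ?_
        rw [hsplit]
        omega
      rw [pow_succ] at h10
      have h11 : ‖(-1 : ℂ)‖ = 1 := by simp
      rw [h11]
      linarith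

end Pool.Agent.MP_ca1109_lc.Xa
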