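import Pool.Agent.MP_ca1109_lc.Xa.PB
import Pool.Agent.MP_ca1109_lc.Xt.TL
import Pool.Agent.MP_ca1109_lc.Pb.TB
import Pool.Agent.MP_ca1109_lc.Agp.G3
import Pool.Agent.MP_ca1109_lc.Mpg.G0

/-!
# Boolean functions of modular gates, integer thresholds and real thresholds: the theorem

* `Gt U r q B g`: `g` is a question for a value in a finite group, all characters of which are
  products in `BP U r q 0`, or a threshold gate with integer weights of at most `B` over terms, or a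
  threshold gate with real weights over monomials in the literals `x i = s i`.
* `final_gt`: a generator which fools all products fools all Boolean functions of such gates.
-/

namespace Pool.Agent.MP_ca1109_lc.Xa

open Finset Pool.Agent.H66 Pool.Agent.MP_ca1109_lc.Mpg Pool.Agent.MP_ca1109_lc.Agp
open Pool.Agent.MP_ca1109_lc.Dnf (Cube ch one one_le one_nonneg one_true one_false Term)
open Pool.Agent.MP_ca1109_lc.Xl (Tr pr Rd)
open Pool.Agent.MP_ca1109_lc.Xp (xo mon)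
open Pool.Agent.MP_ca1109_lc.Xt (BP FB BC rd_empty rd_mono rd_sub pr_empty pr_disj rd_disj st
  bc_char xtl_thr)
open Pool.Agent.MP_ca1109_lc.Pb (At HCt FoolA tt thrb)
open Pool.Agent.MP_ca1109_lc.Xh (rst Foolb HCb)

variable {n : ℕ} {U : Submonoid (Cube n → ℂ)}

/-! ## Approximable tests -/

/-- The test `b` is close to a combination of products, for all strings which fool the products. -/
def Apx (U : Submonoid (Cube n → ℂ)) (r Q : ℕ) (K V C ε₀ ε₁ : ℝ) (b : Cube n → Bool) : Prop :=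
  ∃ G : Cube n → ℂ, (∀ x, ‖G x‖ ≤ 2) ∧ PC U r Q K V C G ∧
    ∀ {Ω : Type} [Fintype Ω] [Nonempty Ω] (X : Ω → Cube n), FP U r Q K V ε₀ X →
      (avg fun ω => ‖((ind (b (X ω)) : ℝ) : ℂ) - G (X ω)‖) ≤ ε₁

theorem Apx.mono {r r' Q Q' : ℕ} {K K' V V' C C' ε₀ ε₀' ε₁ ε₁' : ℝ} {b : Cube n → Bool}
    (h : Apx U r Q K V C ε₀ ε₁ b) (hr : r ≤ r') (hQ : Q ∣ Q') (hK : K ≤ K') (hV : V ≤ V')
    (hC : C ≤ C') (h0 : ε₀' ≤ ε₀) (h1 : ε₁ ≤ ε₁') : Apx U r' Q' K' V' C' ε₀' ε₁' b := by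
  obtain ⟨G, h2, h3, h4⟩ := h
  exact ⟨G, h2, h3.mono hr hQ hK hV hC, fun X hX => (h4 X (hX.mono hr hQ hK hV h0)).trans h1⟩

theorem ind_one (P : Prop) (b : Bool) (hb : b = true ↔ P) : ind b = one P := by
  by_cases h : P
  · rw [one_true h, hb.2 h]
    rfl
  · rw [one_false h]
    have : b = false := by
      cases b
      · rfl
      · exact absurd (hb.1 rfl) h
    rw [this]
    rfl

/-- Questions for values in a finite group. -/
theorem apx_char {r q : ℕ} {V ε₀ : ℝ} (hV : 0 ≤ V) {G : Type} [AddCommGroup G]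
    [Fintype G] (v : Cube n → G) (hv : ∀ χ : AddChar G ℂ, BP U r q V fun x => χ (v x))
    (A : Finset G) (g : Cube n → Bool) (hg : ∀ x, g x = true ↔ v x ∈ A) :
    Apx U r q 0 V A.card ε₀ 0 g := by
  refine ⟨fun x => ((one (v x ∈ A) : ℝ) : ℂ), fun x => ?_, PC.bc le_rfl (bc_char hV v hv A), ?_⟩
  · rw [Complex.norm_real, Real.norm_of_nonneg (one_nonneg _)]
    linarith [one_le (v x ∈ A)]
  · intro Ω _ _ X _
    have e : (fun ω => ‖((ind (g (X ω)) : ℝ) : ℂ) - ((one (v (X ω) ∈ A) : ℝ) : ℂ)‖) =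
        fun _ => 0 := by
      funext ω
      rw [ind_one (v (X ω) ∈ A) (g (X ω)) (hg _), sub_self, norm_zero]
    rw [e, avg_const]

/-- Threshold gates with integer weights. -/
theorem apx_int (r B : ℕ) {ε₁ : ℝ} (h1 : 0 < ε₁) : ∃ (Q : ℕ) (V C ε₀ : ℝ), 0 < Q ∧ 0 ≤ V ∧
    0 ≤ C ∧ 0 < ε₀ ∧ ∀ (n : ℕ) (U : Submonoid (Cube n → ℂ)) {ι : Type} [DecidableEq ι]
      (T : ι → Term n) (M : Finset ι) (w : ι → ℤ) (θ : ℤ), Rd r T M → (∀ m ∈ M, |w m| ≤ B) →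
      ∀ g : Cube n → Bool, (∀ x, g x = true ↔ θ ≤ st T w M x) → Apx U r Q 0 V C ε₀ ε₁ g := by
  obtain ⟨Q, V, C, ε₀, hQ, hV, hC, hε₀, H⟩ := xtl_thr r B h1
  refine ⟨Q, V, C, ε₀, hQ, hV, hC, hε₀, fun n U ι _ T M w θ hM hw g hg => ?_⟩
  obtain ⟨f, h2, h3, h4⟩ := H n U T M w θ hM hw
  refine ⟨f, h3, PC.bc le_rfl h2, fun X hX => ?_⟩
  have e : (fun ω => ‖((ind (g (X ω)) : ℝ) : ℂ) - f (X ω)‖) =
      fun ω => ‖((one (θ ≤ st T w M (X ω)) : ℝ) : ℂ) - f (X ω)‖ := by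
    funext ω
    rw [ind_one (θ ≤ st T w M (X ω)) (g (X ω)) (hg _)]
  rw [e]
  exact h4 X (hX.fb le_rfl)

/-- Threshold gates with real weights over monomials in the literals `x i = s i`. -/
theorem apx_real (r : ℕ) {ε₁ : ℝ} (h1 : 0 < ε₁) : ∃ (K V C ε₀ : ℝ), 0 ≤ K ∧ 0 ≤ V ∧
    0 ≤ C ∧ 0 < ε₀ ∧ ∀ (n : ℕ) (U : Submonoid (Cube n → ℂ)) (M : Finset (Finset (Fin n)))
      (w : Finset (Fin n) → ℝ) (θ : ℝ) (s : Cube n), Xp.Rd r M →
      ∀ (q : ℕ) (g : Cube n → Bool), (∀ x, g x = true ↔ θ ≤ rst M w (xo x s)) →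
        Apx U r q K V C ε₀ ε₁ g := by
  obtain ⟨K, V, B, ε₀, hK, hV, hB, hε₀, H⟩ := thrb r (show 0 < min 1 ε₁ from lt_min one_pos h1)
  refine ⟨K, 4 * V, B, ε₀, hK, by positivity, hB, hε₀, fun n U M w θ s hM q g hg => ?_⟩
  obtain ⟨f, h2, h3, h4⟩ := H n M w θ hM
  refine ⟨fun x => f (xo x s), fun x => ?_, PC.hct (HCt.of_hcb h2 s), fun X hX => ?_⟩
  · refine (h3 _).trans ?_
    linarith [min_le_left (1 : ℝ) ε₁]
  · have e : (fun ω => ‖((ind (g (X ω)) : ℝ) : ℂ) - f (xo (X ω) s)‖) =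
        fun ω => ‖((one (θ ≤ rst M w (xo (X ω) s)) : ℝ) : ℂ) - f (xo (X ω) s)‖ := by
      funext ω
      rw [ind_one (θ ≤ rst M w (xo (X ω) s)) (g (X ω)) (hg _)]
    rw [e]
    exact (h4 (fun ω => xo (X ω) s) ((hX.foolA).foolb s)).trans (min_le_right _ _)

/-! ## The class -/

/-- A question for a value in a finite group all characters of which are products in `BP U r q 0`, or
a threshold gate with integer weights, or a threshold gate with real weights over monomials in the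
literals `x i = s i`. -/
def Gt (U : Submonoid (Cube n → ℂ)) (r q B : ℕ) (g : Cube n → Bool) : Prop :=
  (∃ (G : Type) (_ : AddCommGroup G) (_ : Fintype G) (v : Cube n → G) (A : Finset G),
    A.card ≤ B ∧ (∀ χ : AddChar G ℂ, BP U r q 0 fun x => χ (v x)) ∧ ∀ x, g x = true ↔ v x ∈ A) ∨
  (∃ (ι : Type) (_ : DecidableEq ι) (T : ι → Term n) (M : Finset ι) (w : ι → ℤ) (θ : ℤ),
    Rd r T M ∧ (∀ m ∈ M, |w m| ≤ B) ∧ ∀ x, g x = true ↔ θ ≤ st T w M x) ∨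
  ∃ (M : Finset (Finset (Fin n))) (w : Finset (Fin n) → ℝ) (θ : ℝ) (s : Cube n),
    Xp.Rd r M ∧ ∀ x, g x = true ↔ θ ≤ rst M w (xo x s)

/-- Such gates are approximable. -/
theorem apx_gt (r q B : ℕ) (hq : 0 < q) {ε₁ : ℝ} (h1 : 0 < ε₁) :
    ∃ (Q : ℕ) (K V C ε₀ : ℝ), 0 < Q ∧ 0 ≤ K ∧ 0 ≤ V ∧ 0 ≤ C ∧ 0 < ε₀ ∧
      ∀ (n : ℕ) (U : Submonoid (Cube n → ℂ)) (g : Cube n → Bool), Gt U r q B g →
        Apx U r Q K V C ε₀ ε₁ g := by
  obtain ⟨Q, V₁, C₁, e₁, hQ, hV₁, hC₁, he₁, H₁⟩ := apx_int r B h1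
  obtain ⟨K, V₂, C₂, e₂, hK, hV₂, hC₂, he₂, H₂⟩ := apx_real r h1
  refine ⟨q * Q, K, V₁ + V₂, B + C₁ + C₂, min e₁ e₂, Nat.mul_pos hq hQ, hK, by positivity,
    by positivity, lt_min he₁ he₂, ?_⟩
  have hB : (0 : ℝ) ≤ B := Nat.cast_nonneg B
  intro n U g hg
  rcases hg with ⟨G, i1, i2, v, A, hA, hv, hg⟩ | ⟨ι, i1, T, M, w, θ, hM, hw, hg⟩ |
    ⟨M, w, θ, s, hM, hg⟩
  · have hA' : (A.card : ℝ) ≤ B := by exact_mod_cast hA
    exact (apx_char (ε₀ := min e₁ e₂) le_rfl v hv A g hg).mono le_rfl (dvd_mul_right q Q) hK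
      (by linarith) (by linarith) le_rfl h1.le
  · exact (H₁ n U T M w θ hM hw g hg).mono le_rfl (dvd_mul_left Q q) hK (by linarith)
      (by linarith) (min_le_left _ _) le_rfl
  · exact (H₂ n U M w θ s hM (q * Q) g hg).mono le_rfl dvd_rfl le_rfl (by linarith)
      (by linarith) (min_le_right _ _) le_rfl

/-! ## The theorem -/

/-- Larger classes for small `n` do not matter. -/
theorem fp_eventually {𝒯 𝒯' : ∀ n : ℕ, ((Fin n → Bool) → Bool) → Prop} {ε : ℝ}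
    (h : LogGen 𝒯 ε) (n₀ : ℕ) (h' : ∀ n ≥ n₀, ∀ T, 𝒯' n T → 𝒯 n T) : LogGen 𝒯' ε := by
  obtain ⟨D, G, hD, hG, hl, c, hc⟩ := h
  refine ⟨D, G, hD, hG, hl, c, ?_⟩
  filter_upwards [hc, Filter.eventually_ge_atTop n₀] with n hn hn'
  exact ⟨hn.1, hn.2.1, fun T hT => hn.2.2 T (h' n hn' T hT)⟩

theorem fp_avg_fin (M : ℕ) (F : ℕ → ℝ) : avg (fun a : Fin M => F a) = nr M F := by
  unfold avg nr
  rw [Fintype.card_fin, Fin.sum_univ_eq_sum_range F M]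

/-- A generator which fools all products fools all Boolean functions of such gates. -/
theorem final_gt (U : ∀ n : ℕ, Submonoid (Cube n → ℂ)) (r q B k : ℕ) (hq : 0 < q)
    (hG : ∀ (r q : ℕ) (K V : ℝ) {ε : ℝ}, 0 < q → 0 < ε → ∃ E G, NG E G ∧ ∃ n₀ : ℕ, ∀ n ≥ n₀,
      FP (U n) r q K V ε (fun p : Fin (2 ^ E n) => out G n p)) {ε : ℝ} (hε : 0 < ε) :
    LogGen (fun n f => ∃ (g : Fin k → Cube n → Bool) (F : (Fin k → Bool) → Bool),
      (∀ j, Gt (U n) r q B (g j)) ∧ ∀ x, f x = F fun j => g j x) ε := by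
  classical
  obtain ⟨Q, K, V, C, ε₀, hQ, hK, hV, hC, hε₀, hg⟩ := apx_gt r q B hq
    (ε₁ := ε / (4 * (2 ^ k * (3 ^ k * ((k : ℝ) + 1))))) (by positivity)
  obtain ⟨ε₂, hε₂⟩ : ∃ ε₂ : ℝ, ε₂ = min ε₀ (ε / (2 * (2 ^ k * (1 + C) ^ k))) := ⟨_, rfl⟩
  have hε₂0 : 0 < ε₂ := by rw [hε₂]; exact lt_min hε₀ (by positivity)
  have hε₂1 : ε₂ ≤ ε₀ := by rw [hε₂]; exact min_le_left _ _
  have hε₂2 : ε₂ ≤ ε / (2 * (2 ^ k * (1 + C) ^ k)) := by rw [hε₂]; exact min_le_right _ _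
  obtain ⟨E, G, hNG, n₀, HG⟩ := hG (k * r + r) Q (k * K + K) (k * V + V) hQ hε₂0
  refine fp_eventually (𝒯 := fun n f => n₀ ≤ n ∧ ∃ (g : Fin k → Cube n → Bool)
    (F : (Fin k → Bool) → Bool), (∀ j, Gt (U n) r q B (g j)) ∧ ∀ x, f x = F fun j => g j x)
    (logGen_of hNG fun n T hT => ?_) n₀ fun n hn T hT => ⟨hn, hT⟩
  obtain ⟨hn, g, F, hgate, hT⟩ := hT
  have hne : Nonempty (Fin (2 ^ E n)) := ⟨⟨0, by positivity⟩⟩
  have hX := HG n hn
  choose Gj h01 hPC happ using fun j => hg n (U n) (g j) (hgate j)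
  have hkK : 0 ≤ (k : ℝ) * K := by positivity
  have hkV : 0 ≤ (k : ℝ) * V := by positivity
  have key := xpb_bool (ε₁ := ε / (4 * (2 ^ k * (3 ^ k * ((k : ℝ) + 1))))) hε₂0.le hK hV hC
    F g Gj h01 hPC (hX.mono (Nat.le_add_right _ _) dvd_rfl (by linarith) (by linarith) le_rfl)
    (fun j => happ j (fun x : Cube n => x) (FP.id _ _ _ _ hε₀.le))
    (fun j => happ j _ (hX.mono (Nat.le_add_left _ _) dvd_rfl (by linarith) (by linarith) hε₂1))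
  have e1 : nr (2 ^ E n) (fun p => ind (T (out G n p))) =
      avg fun p : Fin (2 ^ E n) => ind (F fun j => g j (out G n p)) := by
    rw [← fp_avg_fin]
    congr 1
    funext p
    rw [hT]
  have e2 : prob T = avg fun x : Cube n => ind (F fun j => g j x) := by
    rw [prob_eq_avg]
    congr 1
    funext x
    rw [hT]
  rw [e1, e2]
  refine key.trans ?_
  have e3 : 2 * (2 ^ k * (3 ^ k * ((k : ℝ) * (ε / (4 * (2 ^ k * (3 ^ k * ((k : ℝ) + 1)))))))) ≤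
      ε / 2 := by
    rw [show 2 * (2 ^ k * (3 ^ k * ((k : ℝ) * (ε / (4 * (2 ^ k * (3 ^ k * ((k : ℝ) + 1)))))))) =
      ε / 2 * ((k : ℝ) / ((k : ℝ) + 1)) by field_simp; ring]
    have : (k : ℝ) / ((k : ℝ) + 1) ≤ 1 := by
      rw [div_le_one (by positivity)]
      linarith
    nlinarith
  have e4 : 2 ^ k * (1 + C) ^ k * ε₂ ≤ ε / 2 := by
    calc 2 ^ k * (1 + C) ^ k * ε₂ ≤ 2 ^ k * (1 + C) ^ k * (ε / (2 * (2 ^ k * (1 + C) ^ k))) :=
          mul_le_mul_of_nonneg_left hε₂2 (by positivity)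
      _ = ε / 2 := by field_simp
  linarith

end Pool.Agent.MP_ca1109_lc.Xa
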