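import Pool.Agent.MP_ca1109_lc.Xa.FP
import Pool.Agent.MP_ca1109_lc.Xa.MA3
import Pool.Agent.MP_ca1109_lc.Xu.Test

/-!
# Boolean functions of modular gates, integer thresholds and real thresholds: the theorem
-/

namespace Pool.Agent.MP_ca1109_lc.Xa

open Finset Pool.Agent.H66 Pool.Agent.MP_ca1109_lc.Mpg Pool.Agent.MP_ca1109_lc.Agp
open Pool.Agent.MP_ca1109_lc.Dnf (Cube ch one one_le one_nonneg one_true one_false Term)
open Pool.Agent.MP_ca1109_lc.Xl (Tr pr Rd wb)
open Pool.Agent.MP_ca1109_lc.Xp (xo mon)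
open Pool.Agent.MP_ca1109_lc.Xt (BP FB BC rd_sub vl vl_ne map_vl)
open Pool.Agent.MP_ca1109_lc.Pb (At HCt FoolA tt)
open Pool.Agent.MP_ca1109_lc.Xh (rst Foolb HCb)
open Pool.Agent.MP_ca1109_lc.Xg (hx)
open Pool.Agent.MP_ca1109_lc.Xu (litSum GateTest)

variable {n : ℕ}

/-! ## The generator -/

/-- At most `r n` nonempty terms of read `r`. -/
theorem fu_card {ι : Type} {r : ℕ} {T : ι → Term n} {M : Finset ι} (hM : Rd r T M)
    (h0 : ∀ m ∈ M, (T m).S ≠ ∅) : M.card ≤ n * r := by
  classical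
  calc M.card = ∑ m ∈ M, 1 := by rw [sum_const, smul_eq_mul, mul_one]
    _ ≤ ∑ m ∈ M, (T m).S.card :=
        sum_le_sum fun m hm => card_pos.2 (nonempty_iff_ne_empty.2 (h0 m hm))
    _ = ∑ m ∈ M, ∑ i : Fin n, if i ∈ (T m).S then 1 else 0 := by
        refine sum_congr rfl fun m _ => ?_
        rw [← card_filter]
        congr 1
        ext i
        simp
    _ = ∑ i : Fin n, ∑ m ∈ M, if i ∈ (T m).S then 1 else 0 := sum_comm
    _ = ∑ i : Fin n, (M.filter fun m => i ∈ (T m).S).card :=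
        sum_congr rfl fun i _ => (card_filter _ _).symm
    _ ≤ ∑ _i : Fin n, r := sum_le_sum fun i _ => hM i
    _ = n * r := by rw [sum_const, card_univ, Fintype.card_fin, smul_eq_mul]

/-- The generator fools all products. -/
theorem fu_gen (r q : ℕ) (K V : ℝ) {ε : ℝ} (hq : 0 < q) (hε : 0 < ε) : ∃ E G, NG E G ∧
    ∃ n₀ : ℕ, ∀ n ≥ n₀,
      FP (⊥ : Submonoid (Cube n → ℂ)) r q K V ε (fun p : Fin (2 ^ E n) => out G n p) := by
  classical
  obtain ⟨E, G, hNG, n₀, HG⟩ := gxp r q 2 hq K V hε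
  refine ⟨E, G, hNG, max n₀ r, fun n hn f hf => ?_⟩
  have hn0 : n₀ ≤ n := (le_max_left _ _).trans hn
  have hnr : r ≤ n := (le_max_right _ _).trans hn
  have hcard : ∀ {ι : Type} {T : ι → Term n} {M : Finset ι}, Rd r T M →
      (∀ m ∈ M, (T m).S ≠ ∅) → M.card ≤ n ^ 2 := by
    intro ι T M hM h0
    refine (fu_card hM h0).trans ?_
    rw [pow_two]
    exact Nat.mul_le_mul_left _ hnr
  obtain ⟨u, hu, ι, i1, T, M, ζ, g, h1, h2, h3, h4, h5⟩ := hf
  have hu1 : u = 1 := Submonoid.mem_bot.1 hu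
  obtain ⟨κ, i2, T', z, J, ψ, k1, k2, k3, k4, k5, k6, k7⟩ := h4
  have hT' : Rd r T' (univ : Finset κ) := k2
  have hJ : Rd r T' J := rd_sub hT' (subset_univ _)
  have hne : ∀ m, (T' m).S ≠ ∅ := fun m => nonempty_iff_ne_empty.1 (k1 m)
  have key := HG n hn0 T M ζ T' univ z T' J ψ (rd_sub h1 (filter_subset _ _)) (hcard h1 h2) h3
    (rd_sub hT' (filter_subset _ _)) (hcard hT' fun m _ => hne m) (fun m _ => k3 m) k5
    (rd_sub hJ (filter_subset _ _)) (hcard hJ fun m _ => hne m) k6 k4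
  have e : ∀ x, f x = pr T ζ M x * (ψ (hx J T' x) * pr T' z univ x) := by
    intro x
    rw [h5, hu1, k7]
    show (1 : ℂ) * _ = _
    rw [one_mul]
    congr 1
  rw [← av_fin (2 ^ E n)] at key
  simp only [← e] at key
  exact key

/-! ## The gates -/

/-- The terms. -/
def lt {N n : ℕ} (S : Fin N → Finset (Fin n)) (y : Fin N → Fin n → Bool) : Fin N → Term n :=
  fun m => ⟨S m, y m⟩

theorem fu_rd {N r : ℕ} {S : Fin N → Finset (Fin n)} {y : Fin N → Fin n → Bool}
    {P : Fin N → Prop} (h : ∀ i, {m | i ∈ S m ∧ P m}.ncard ≤ r) (M : Finset (Fin N))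
    (hM : ∀ m ∈ M, ∀ i ∈ S m, P m) : Rd r (lt S y) M := by
  classical
  intro i
  refine le_trans ?_ (h i)
  rw [← Set.ncard_coe_finset]
  refine Set.ncard_le_ncard (fun m hm => ?_) (Set.toFinite _)
  rw [Finset.mem_coe, mem_filter] at hm
  exact ⟨hm.2, hM m hm.1 i hm.2⟩

theorem fu_vl {N : ℕ} {G : Type} [AddCommGroup G] (S : Fin N → Finset (Fin n))
    (y : Fin N → Fin n → Bool) (c : Fin N → G) (x : Cube n) :
    litSum S y c x = vl (lt S y) c univ x := by
  classical
  unfold litSum vl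
  refine sum_congr rfl fun m _ => ?_
  by_cases h : ∀ i ∈ S m, x i = y m i
  · rw [if_pos h, if_pos (show Tr (lt S y m).S (lt S y m).a x from h)]
  · rw [if_neg h, if_neg (show ¬ Tr (lt S y m).S (lt S y m).a x from h)]

theorem fu_st {N : ℕ} (S : Fin N → Finset (Fin n)) (y : Fin N → Fin n → Bool) (w : Fin N → ℤ)
    (x : Cube n) : litSum S y w x = Xt.st (lt S y) w univ x := by
  classical
  unfold litSum Xt.st
  refine sum_congr rfl fun m _ => ?_
  by_cases h : ∀ i ∈ S m, x i = y m i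
  · rw [if_pos h, if_pos (show Tr (lt S y m).S (lt S y m).a x from h)]
  · rw [if_neg h, if_neg (show ¬ Tr (lt S y m).S (lt S y m).a x from h)]

theorem fu_rst {N : ℕ} (S : Fin N → Finset (Fin n)) (y : Fin N → Fin n → Bool) (w : Fin N → ℝ)
    (s : Fin n → Bool) (hs : ∀ m, y m = s) (x : Cube n) :
    litSum S y w x = rst (univ.image S) (fun A => ∑ j ∈ univ.filter (fun j => S j = A), w j)
      (xo x fun i => !(s i)) := by
  classical
  unfold litSum rst
  have h1 : ∀ A, (∑ j ∈ univ.filter (fun j => S j = A), w j) * mon A (xo x fun i => !(s i)) =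
      ∑ j ∈ univ.filter (fun j => S j = A), w j * mon (S j) (xo x fun i => !(s i)) := by
    intro A
    rw [sum_mul]
    refine sum_congr rfl fun j hj => ?_
    rw [(mem_filter.1 hj).2]
  rw [sum_congr rfl fun A _ => h1 A,
    sum_fiberwise_of_maps_to (s := univ) (t := univ.image S) (g := S)
      (fun j _ => mem_image_of_mem S (mem_univ j))
      fun j => w j * mon (S j) (xo x fun i => !(s i))]
  refine sum_congr rfl fun j _ => ?_
  have h2 : (∀ i ∈ S j, x i = y j i) ↔ Xp.Tr (S j) (xo x fun i => !(s i)) := by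
    unfold Xp.Tr xo
    refine forall_congr' fun i => forall_congr' fun _ => ?_
    rw [hs j]
    show x i = s i ↔ xor (x i) (!(s i)) = true
    cases x i <;> cases s i <;> decide
  unfold mon
  by_cases h3 : Xp.Tr (S j) (xo x fun i => !(s i))
  · rw [if_pos (h2.2 h3), one_true h3, mul_one]
  · rw [if_neg fun h4 => h3 (h2.1 h4), one_false h3, mul_zero]

/-- The gates of the class are gates in the sense of `Gt`. -/
theorem fu_gate {q r B : ℕ} {g : Cube n → Bool} (hg : Xu.Gate q 0 r B g) :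
    Gt (⊥ : Submonoid (Cube n → ℂ)) r q B g := by
  classical
  obtain ⟨N, S, y, hg⟩ := hg
  rcases hg with ⟨G, i1, i2, c, A, hq, hA, hr, hgx⟩ | ⟨w, θ, hw, hr, hgx⟩ | ⟨w, θ, s, hs, hr, hgx⟩
  · have i3 : Fintype G := Fintype.ofFinite G
    obtain ⟨κ, hκ⟩ := vl_ne (lt S y) c (univ : Finset (Fin N))
    set M : Finset (Fin N) := univ.filter fun m => (lt S y m).S ≠ ∅ with hM
    have hRd : Rd r (lt S y) M := fu_rd hr M fun m _ i hi => Or.inl (card_pos.2 ⟨i, hi⟩)
    refine Or.inl ⟨G, i1, i3, vl (lt S y) c M, A.image fun a => a - κ, card_image_le.trans hA,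
      fun χ => ?_, fun x => ?_⟩
    · have h1 : (fun x => χ (vl (lt S y) c M x)) = pr (lt S y) (fun m => χ (c m)) M := by
        funext x
        exact map_vl (lt S y) c M χ x
      rw [h1]
      refine BP.root le_rfl hRd (fun m hm => (mem_filter.1 hm).2) fun m _ => ?_
      rw [← AddChar.map_nsmul_eq_pow, hq, AddChar.map_zero_eq_one]
    · rw [hgx, fu_vl, hκ, mem_image]
      constructor
      · intro h
        exact ⟨_, h, by abel⟩
      · rintro ⟨a, ha, he⟩
        rw [← he, add_sub_cancel]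
        exact ha
  · refine Or.inr (Or.inl ⟨Fin N, inferInstance, lt S y, univ, w, θ, ?_, fun m _ => hw m,
      fun x => ?_⟩)
    · exact fu_rd (P := fun _ => True) (by simpa using hr) _ fun _ _ _ _ => trivial
    · rw [hgx, fu_st]
  · refine Or.inr (Or.inr ⟨univ.image S,
      fun A => ∑ j ∈ univ.filter (fun j => S j = A), w j, θ, fun i => !(s i), fun i => ?_, fun x => ?_⟩)
    · refine le_trans ?_ (hr i)
      have h1 : ((univ.image S).filter fun m => i ∈ m) ⊆
          (univ.filter fun j => i ∈ S j).image S := by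
        intro m hm
        rw [mem_filter, mem_image] at hm
        obtain ⟨⟨j, _, rfl⟩, hi⟩ := hm
        exact mem_image_of_mem S (mem_filter.2 ⟨mem_univ j, hi⟩)
      refine (card_le_card h1).trans (card_image_le.trans (le_of_eq ?_))
      rw [← Set.ncard_coe_finset]
      congr 1
      ext m
      simp
    · rw [hgx, fu_rst S y w s hs]

/-- The theorem. -/
theorem final_plus (q r B k : ℕ) (hq : 0 < q) {ε : ℝ} (hε : 0 < ε) :
    LogGen (GateTest q 0 r B k) ε := by
  have h := final_gt (fun n => (⊥ : Submonoid (Cube n → ℂ))) r q B k hq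
    (fun r q K V _ hq hε => fu_gen r q K V hq hε) hε
  refine fp_eventually h 0 fun n _ f hf => ?_
  obtain ⟨g, F, hg, hf⟩ := hf
  exact ⟨g, F, fun j => fu_gate (hg j), hf⟩

end Pool.Agent.MP_ca1109_lc.Xa
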