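import Pool.Agent.MP_ca1109_lc.Xl.Defs
import Pool.Agent.MP_ca1109_lc.Xg.BH

/-!
# Taylor polynomials for products of unimodular weights of bounded energy
-/

namespace Pool.Agent.MP_ca1109_lc.Xa

open Finset Pool.Agent.MP_ca1109_lc.Mpg Pool.Agent.MP_ca1109_lc.Agp
open Pool.Agent.MP_ca1109_lc.Dnf (Cube ch one Term E E_mono E_smul)
open Pool.Agent.MP_ca1109_lc.Xp (Sp Bias xo fl Src mv ctr gt_moment gt_ctr_sp spb_avg_E)
open Pool.Agent.MP_ca1109_lc.Xl (pr Rd)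
open Pool.Agent.MP_ca1109_lc.Xg (brm bpm brm_sp bpm_sp brm_sq bpm_close tj tj_eq bb_arg)

theorem taylor2 (r : ℕ) (V : ℝ) {ε : ℝ} (hε : 0 < ε) : ∃ C : ℕ, ∀ (n : ℕ) {κ : Type} [DecidableEq κ]
    (T : κ → Term n) (M : Finset κ) (ζ : κ → ℂ), Rd r T M → (∀ m ∈ M, ‖ζ m‖ = 1) →
    ∑ m ∈ M, (1 / 2 : ℝ) ^ (T m).S.card * ‖1 - ζ m‖ ^ 2 ≤ V →
    ∃ (t : Cube n → ℂ) (R : Cube n → ℝ),
      (∀ x, ‖pr T ζ M x - t x‖ ≤ R x) ∧ (avg fun x => (R x) ^ 2) ≤ ε ∧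
      Sp ((C * ((M.card : ℝ) + 1)) ^ C) t ∧
      Sp ((C * ((M.card : ℝ) + 1)) ^ C) (fun x => ((R x : ℝ) : ℂ)) := by
  obtain ⟨E3, hE3⟩ : ∃ E3 : ℝ, E3 = Real.exp (((r + 1 : ℕ) : ℝ) * 4 ^ 2 *
    Real.exp (((r + 1 : ℕ) : ℝ) * 4 * Real.pi) * (3 * V)) := ⟨_, rfl⟩
  have hE3p : 0 < E3 := by rw [hE3]; exact Real.exp_pos _
  obtain ⟨m, hm⟩ : ∃ m : ℕ, 2 * E3 * (1 / 16) ^ m ≤ ε := by
    obtain ⟨m, hm⟩ := exists_pow_lt_of_lt_one (div_pos hε (by positivity : 0 < 2 * E3))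
      (by norm_num : (1 / 16 : ℝ) < 1)
    rw [lt_div_iff₀ (by positivity)] at hm
    exact ⟨m, by linarith⟩
  refine ⟨9 * (2 * m + 1), ?_⟩
  intro n κ _ T M ζ hread hζ hV
  have hread' : ∀ v, (M.filter fun j => v ∈ (T j).S).card ≤ r := hread
  set a : κ → ℝ := fun j => (ζ j).arg with ha
  have haα : ∀ j ∈ M, |a j| ≤ Real.pi := fun j _ => Complex.abs_arg_le_pi _
  have hVa : ∑ j ∈ M, a j ^ 2 * (1 / 2 : ℝ) ^ (T j).S.card ≤ 3 * V := by
    calc ∑ j ∈ M, (ζ j).arg ^ 2 * (1 / 2 : ℝ) ^ (T j).S.card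
        ≤ ∑ j ∈ M, 3 * ((1 / 2 : ℝ) ^ (T j).S.card * ‖1 - ζ j‖ ^ 2) := sum_le_sum fun j hj => by
          have := mul_le_mul_of_nonneg_right (bb_arg (hζ j hj))
            (by positivity : (0 : ℝ) ≤ (1 / 2) ^ (T j).S.card)
          linarith
      _ = 3 * ∑ j ∈ M, (1 / 2 : ℝ) ^ (T j).S.card * ‖1 - ζ j‖ ^ 2 := by rw [mul_sum]
      _ ≤ 3 * V := by linarith
  set y : Cube n → ℝ := ctr M T a with hy
  set b : ℝ := 9 * ((M.card : ℝ) + 1) with hb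
  have hM0 : (0 : ℝ) ≤ M.card := Nat.cast_nonneg _
  have hb1 : 1 ≤ b := by rw [hb]; linarith
  have hys : Sp b (fun x => ((y x : ℝ) : ℂ)) := by
    refine (gt_ctr_sp M T a (by norm_num : (0 : ℝ) ≤ 4) (fun j hj => (haα j hj).trans ?_)).mono ?_
    · have := Real.pi_lt_d2
      linarith
    · rw [hb]; norm_num
  -- the norms
  have hm0 : (0 : ℝ) ≤ m := Nat.cast_nonneg _
  have hnorm : (2 * (m : ℝ) + 1) * b ^ (2 * m) ≤
      (((9 * (2 * m + 1) : ℕ) : ℝ) * ((M.card : ℝ) + 1)) ^ (9 * (2 * m + 1)) := by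
    have h1 : (2 * (m : ℝ) + 1) * b = ((9 * (2 * m + 1) : ℕ) : ℝ) * ((M.card : ℝ) + 1) := by
      rw [hb]
      push_cast
      ring
    rw [← h1]
    have h2 : (1 : ℝ) ≤ 2 * (m : ℝ) + 1 := by linarith
    have h3 : 1 ≤ (2 * (m : ℝ) + 1) * b := one_le_mul_of_one_le_of_one_le h2 hb1
    have h4 : (2 * (m : ℝ) + 1) ≤ (2 * (m : ℝ) + 1) * b := le_mul_of_one_le_right (by linarith) hb1
    have h5 : b ≤ (2 * (m : ℝ) + 1) * b := le_mul_of_one_le_left (by linarith) h2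
    calc (2 * (m : ℝ) + 1) * b ^ (2 * m)
        ≤ ((2 * (m : ℝ) + 1) * b) * ((2 * (m : ℝ) + 1) * b) ^ (2 * m) :=
          mul_le_mul h4 (pow_le_pow_left₀ (by linarith) h5 _) (by positivity) (by linarith)
      _ = ((2 * (m : ℝ) + 1) * b) ^ (2 * m + 1) := by rw [pow_succ]; ring
      _ ≤ _ := pow_le_pow_right₀ h3 (by omega)
  have hbm : 0 ≤ b ^ (2 * m) := by positivity
  set φ : ℂ := Complex.exp (Complex.I * (∑ j ∈ M, a j * (1 / 2) ^ (T j).S.card : ℝ)) with hφ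
  have hφ1 : ‖φ‖ = 1 := by rw [hφ, mul_comm, Complex.norm_exp_ofReal_mul_I]
  refine ⟨fun x => φ * bpm m y x, brm m y, ?_, ?_, ?_, ?_⟩
  · intro x
    have h1 : pr T ζ M x = φ * Complex.exp (Complex.I * (y x : ℂ)) := by
      have h0 : pr T ζ M x = tj M T ζ x := rfl
      rw [h0, tj_eq M T ζ hζ x, hφ, ← Complex.exp_add, ← mul_add, ← Complex.ofReal_add]
      congr 3
      rw [hy]
      unfold ctr
      rw [← sum_add_distrib]
      exact sum_congr rfl fun j _ => by rw [ha]; ring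
    rw [h1, ← mul_sub, norm_mul, hφ1, one_mul]
    exact bpm_close m y x
  · rw [spb_avg_E]
    refine (E_mono fun x => brm_sq m y x).trans ?_
    rw [E_smul]
    have h1 : E (brm (2 * m) y) ≤ 2 * E3 / 4 ^ (2 * (2 * m)) := by
      rw [hE3]
      exact gt_moment (Nat.succ_pos r) M T (fun v => (hread' v).trans (Nat.le_succ r)) a haα hVa
        (by norm_num : (0 : ℝ) < 4) (2 * m)
    refine le_trans (mul_le_mul_of_nonneg_left h1 (by positivity)) (le_trans (le_of_eq ?_) hm)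
    rw [show 2 * (2 * m) = 4 * m by ring, pow_mul, show (4 : ℝ) ^ 4 = 16 * 16 by norm_num, mul_pow,
      one_div_pow]
    field_simp
  · have h1 := (bpm_sp hb1 hys m).smul φ
    rw [hφ1, one_mul] at h1
    refine h1.mono (le_trans ?_ hnorm)
    exact mul_le_mul_of_nonneg_right (by linarith) hbm
  · refine (brm_sp hb1 hys m).mono (le_trans ?_ hnorm)
    exact le_mul_of_one_le_left hbm (by linarith)

end Pool.Agent.MP_ca1109_lc.Xa
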