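import Pool.Agent.MP_ca1109_lc.Xt.VB

/-!
# The bounded energy part hardly changes in a sparse level
-/

namespace Pool.Agent.MP_ca1109_lc.Xa

open Finset Pool.Agent.H66 Pool.Agent.MP_ca1109_lc.Mpg Pool.Agent.MP_ca1109_lc.Agp
open Pool.Agent.MP_ca1109_lc.Dnf (Cube ch one Term)
open Pool.Agent.MP_ca1109_lc.Xp (Sp Bias xo fl Src)
open Pool.Agent.MP_ca1109_lc.Xl (pr Rd Fam A1 lam tm)

variable {n : ℕ}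

theorem vb (r : ℕ) : ∃ C : ℕ, ∀ (n W : ℕ) {κ : Type} [DecidableEq κ] (T : κ → Term n)
    (M : Finset κ) (ζ : κ → ℂ) (V : ℝ), Fam r W T M → (∀ m ∈ M, ‖ζ m‖ = 1) →
    ∑ m ∈ M, (1 / 2 : ℝ) ^ (T m).S.card * ‖1 - ζ m‖ ^ 2 ≤ V →
    ∀ p δ : ℝ, 0 ≤ p → 0 ≤ δ → ∀ {Ω₁ Ω₂ : Type} [Fintype Ω₁] [Nonempty Ω₁] [Fintype Ω₂]
      [Nonempty Ω₂] {B : ℕ} (Z : Ω₂ → Ω₁ → Cube n) (η : Ω₂ → Finset (Fin n))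
      (h : Ω₂ → Fin n → Fin B), (∀ ω₂, Bias δ (Z ω₂)) → Src p δ η h →
      (avg fun ω₂ => avg fun ω₁ => avg fun u : Fin B → Bool =>
        ‖pr T ζ M (Xp.mv (Z ω₂ ω₁) (η ω₂) (h ω₂) u) - pr T ζ M (Z ω₂ ω₁)‖) ≤
        Real.sqrt (C * V * W * (p + δ) + C * δ * ((n : ℝ) + 1) ^ 2) := Xt.vb_sqrt r

end Pool.Agent.MP_ca1109_lc.Xa
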