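import Pool.Agent.MP_ca1109_lc.Xl.MA
import Pool.Agent.MP_ca1109_lc.Xa.PF
import Pool.Agent.MP_ca1109_lc.Xa.VB

/-!
# The main assembly: the generator fools products of characters and of phases of bounded energy
-/

namespace Pool.Agent.MP_ca1109_lc.Xa

open Finset Pool.Agent.H66 Pool.Agent.MP_ca1109_lc.Mpg Pool.Agent.MP_ca1109_lc.Agp
open Pool.Agent.MP_ca1109_lc.Dnf (Cube ch one Term)
open Pool.Agent.MP_ca1109_lc.Xp (Sp Bias xo fl Src mv Ph gx ph_close ph_const ph_unif ph_level ph_mul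
  ma_norm_av ma_av_sub ma_av_mul_left ma_av_diff ma_clog ma_clog' ma_pow ma_level)
open Pool.Agent.MP_ca1109_lc.Xl (Tr pr Rd Fam A1 Red wb mb_half mb_four mb_big ml_factor ml_norm_pr
  ml_pr_one ml_sum ml_drop A1_le_card card_le reduce)

variable {n : ℕ} {ι κ : Type} [DecidableEq ι] [DecidableEq κ]

/-- Two factors of modulus one may be replaced one after the other. -/
theorem mh_two {A : Type*} [Fintype A] {g g' h h' : A → ℂ} {a b : ℝ} (hh : ∀ x, ‖h x‖ ≤ 1)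
    (hg' : ∀ x, ‖g' x‖ ≤ 1) (h1 : (avg fun x => ‖g x - g' x‖) ≤ a)
    (h2 : (avg fun x => ‖h x - h' x‖) ≤ b) :
    ‖(av fun x => g x * h x) - av fun x => g' x * h' x‖ ≤ a + b := by
  refine (ma_av_diff (R := fun x => ‖g x - g' x‖ + ‖h x - h' x‖) fun x => ?_).trans ?_
  · calc ‖g x * h x - g' x * h' x‖ = ‖(g x - g' x) * h x + g' x * (h x - h' x)‖ := by
          congr 1
          ring
      _ ≤ ‖(g x - g' x) * h x‖ + ‖g' x * (h x - h' x)‖ := norm_add_le _ _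
      _ ≤ ‖g x - g' x‖ + ‖h x - h' x‖ := by
          rw [norm_mul, norm_mul]
          refine add_le_add ?_ ?_
          · exact mul_le_of_le_one_right (norm_nonneg _) (hh x)
          · exact mul_le_of_le_one_left (norm_nonneg _) (hg' x)
  · rw [avg_add]
    exact add_le_add h1 h2

/-- The wide terms may be dropped. -/
theorem mh_drop {W : ℕ} {T : ι → Term n} {M : Finset ι} {ζ : ι → ℂ} (hζ : ∀ m ∈ M, ‖ζ m‖ = 1)
    {δ : ℝ} (hδ : 0 ≤ δ) {K : ℝ} (hK : (M.card : ℝ) ≤ K)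
    {Ω : Type} [Fintype Ω] [Nonempty Ω] {Y : Ω → Cube n} (hY : Bias δ Y) :
    (avg fun ω => ‖pr T ζ M (Y ω) - pr T ζ (M.filter fun m => (T m).S.card ≤ W) (Y ω)‖) ≤
      2 * K * ((1 / 2) ^ W + δ) := by
  classical
  have h1 : ∀ ω, ‖pr T ζ M (Y ω) - pr T ζ (M.filter fun m => (T m).S.card ≤ W) (Y ω)‖ ≤
      ∑ m ∈ M.filter (fun m => ¬ (T m).S.card ≤ W), 2 * Xl.tm (T m).S (T m).a (Y ω) := by
    intro ω
    rw [ml_factor T ζ M (fun m => (T m).S.card ≤ W) (Y ω)]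
    have h2 : ‖pr T ζ (M.filter fun m => (T m).S.card ≤ W) (Y ω)‖ = 1 :=
      ml_norm_pr (fun m hm => hζ m (Finset.mem_filter.1 hm).1) _
    calc ‖pr T ζ (M.filter fun m => (T m).S.card ≤ W) (Y ω) *
          pr T ζ (M.filter fun m => ¬ (T m).S.card ≤ W) (Y ω) -
          pr T ζ (M.filter fun m => (T m).S.card ≤ W) (Y ω)‖
        = ‖pr T ζ (M.filter fun m => (T m).S.card ≤ W) (Y ω) *
          (pr T ζ (M.filter fun m => ¬ (T m).S.card ≤ W) (Y ω) - 1)‖ := by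
          congr 1
          ring
      _ = ‖pr T ζ (M.filter fun m => ¬ (T m).S.card ≤ W) (Y ω) - 1‖ := by
          rw [norm_mul, h2, one_mul]
      _ ≤ _ := ml_pr_one (fun m hm => hζ m (Finset.mem_filter.1 hm).1) _
  refine (avg_mono h1).trans ?_
  refine (ml_sum (fun m hm => not_le.1 (Finset.mem_filter.1 hm).2) hδ hY).trans ?_
  have h3 : ((M.filter fun m => ¬ (T m).S.card ≤ W).card : ℝ) ≤ K :=
    le_trans (by exact_mod_cast Finset.card_le_card (Finset.filter_subset _ _)) hK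
  have h4 : (0 : ℝ) ≤ (1 / 2) ^ W + δ := by positivity
  nlinarith

/-- The empty terms are constant. -/
theorem mh_empty {T : κ → Term n} {ξ : κ → ℂ} {M : Finset κ} (h : ∀ m ∈ M, ‖ξ m‖ = 1) :
    ∃ c : ℂ, ‖c‖ = 1 ∧ ∀ x, pr T ξ M x = c * pr T ξ (M.filter fun m => (T m).S ≠ ∅) x := by
  classical
  refine ⟨∏ m ∈ M.filter (fun m => ¬ (T m).S ≠ ∅), ξ m, ?_, fun x => ?_⟩
  · rw [norm_prod]
    exact Finset.prod_eq_one fun m hm => h m (Finset.mem_filter.1 hm).1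
  · rw [ml_factor T ξ M (fun m => (T m).S ≠ ∅) x, mul_comm]
    congr 1
    unfold pr
    refine Finset.prod_congr rfl fun m hm => ?_
    have h1 : (T m).S = ∅ := not_not.1 (Finset.mem_filter.1 hm).2
    rw [if_pos]
    intro i hi
    rw [h1] at hi
    exact absurd hi (Finset.notMem_empty i)

/-- The energy of the phases. -/
noncomputable def en (T : κ → Term n) (ξ : κ → ℂ) (M : Finset κ) : ℝ :=
  ∑ m ∈ M, (1 / 2 : ℝ) ^ (T m).S.card * ‖1 - ξ m‖ ^ 2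

omit [DecidableEq κ] in
theorem en_mono {T : κ → Term n} {ξ : κ → ℂ} {M M' : Finset κ} (h : M' ⊆ M) :
    en T ξ M' ≤ en T ξ M := by
  unfold en
  exact Finset.sum_le_sum_of_subset_of_nonneg h fun m _ _ => by positivity

/-- `vb` with the side conditions of `core`. -/
theorem mh_vb (r : ℕ) (V : ℝ) {ε : ℝ} (hε : 0 < ε) : ∃ C : ℕ, ∀ (n W : ℕ) {κ : Type}
    [DecidableEq κ] (T : κ → Term n) (M : Finset κ) (ξ : κ → ℂ), Fam r W T M → 1 ≤ W →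
    (∀ m ∈ M, ‖ξ m‖ = 1) → en T ξ M ≤ V →
    ∀ p δ : ℝ, 0 < p → p ≤ 1 → C * p * W ≤ 1 → 0 ≤ δ → C * δ * ((n : ℝ) + 1) ^ 2 * 4 ^ W ≤ 1 →
    ∀ {Ω₁ Ω₂ : Type} [Fintype Ω₁] [Nonempty Ω₁] [Fintype Ω₂] [Nonempty Ω₂] {B : ℕ}
      (Z : Ω₂ → Ω₁ → Cube n) (η : Ω₂ → Finset (Fin n)) (h : Ω₂ → Fin n → Fin B),
      (∀ ω₂, Bias δ (Z ω₂)) → Src p δ η h →
      (avg fun ω₂ => avg fun ω₁ => avg fun u : Fin B → Bool =>
        ‖pr T ξ M (mv (Z ω₂ ω₁) (η ω₂) (h ω₂) u) - pr T ξ M (Z ω₂ ω₁)‖) ≤ ε := by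
  obtain ⟨C₀, H⟩ := vb r
  obtain ⟨C, hC⟩ := exists_nat_gt (3 * (C₀ * max V 1) / ε ^ 2)
  refine ⟨C, fun n W κ _ T M ξ hM hW hξ hen p δ hp hp1 hpW hδ hδW Ω₁ Ω₂ _ _ _ _ B Z η h hZ hS => ?_⟩
  have hV : (1 : ℝ) ≤ max V 1 := le_max_right _ _
  have hW1 : (1 : ℝ) ≤ W := by exact_mod_cast hW
  have hC₀ : (0 : ℝ) ≤ C₀ := Nat.cast_nonneg _
  have hCn : (0 : ℝ) ≤ C := Nat.cast_nonneg _
  have hn : (0 : ℝ) ≤ n := Nat.cast_nonneg _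
  have h1 := H n W T M ξ (max V 1) hM hξ (hen.trans (le_max_left _ _)) p δ hp.le hδ Z η h hZ hS
  refine h1.trans ?_
  rw [← Real.sqrt_sq hε.le]
  apply Real.sqrt_le_sqrt
  have h2 : 3 * (C₀ * max V 1) ≤ C * ε ^ 2 := by
    rw [div_lt_iff₀ (by positivity)] at hC
    exact hC.le
  have h3 : C₀ ≤ C₀ * max V 1 := le_mul_of_one_le_right hC₀ hV
  -- the three parts
  have h5 : (W : ℝ) ≤ 4 ^ W := by
    have : (W : ℝ) < 4 ^ W := by exact_mod_cast Nat.lt_pow_self (by norm_num)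
    exact this.le
  have h6 : (1 : ℝ) ≤ ((n : ℝ) + 1) ^ 2 := one_le_pow₀ (by linarith)
  have h7 : (1 : ℝ) ≤ (4 : ℝ) ^ W := one_le_pow₀ (by norm_num)
  have h8 : C * (δ * W) ≤ 1 := by
    refine le_trans ?_ hδW
    calc (C : ℝ) * (δ * W) ≤ C * (δ * 4 ^ W) := by gcongr
      _ = C * δ * 1 * 4 ^ W := by ring
      _ ≤ C * δ * ((n : ℝ) + 1) ^ 2 * 4 ^ W := by gcongr
  have h9 : C * (δ * ((n : ℝ) + 1) ^ 2) ≤ 1 := by
    refine le_trans ?_ hδW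
    calc (C : ℝ) * (δ * ((n : ℝ) + 1) ^ 2) = C * δ * ((n : ℝ) + 1) ^ 2 * 1 := by ring
      _ ≤ C * δ * ((n : ℝ) + 1) ^ 2 * 4 ^ W := by gcongr
  have h10 : C * (p * W) ≤ 1 := by
    rw [← mul_assoc]
    exact hpW
  have key : ∀ y : ℝ, 0 ≤ y → C * y ≤ 1 → C₀ * max V 1 * y ≤ ε ^ 2 / 3 := by
    intro y hy hy1
    have h11 : 3 * (C₀ * max V 1) * y ≤ C * ε ^ 2 * y := mul_le_mul_of_nonneg_right h2 hy
    have h12 : C * ε ^ 2 * y = ε ^ 2 * (C * y) := by ring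
    have h13 : ε ^ 2 * (C * y) ≤ ε ^ 2 * 1 := mul_le_mul_of_nonneg_left hy1 (by positivity)
    linarith
  have k1 := key (p * W) (by positivity) h10
  have k2 := key (δ * W) (by positivity) h8
  have k3 := key (δ * ((n : ℝ) + 1) ^ 2) (by positivity) h9
  have k4 : C₀ * (δ * ((n : ℝ) + 1) ^ 2) ≤ C₀ * max V 1 * (δ * ((n : ℝ) + 1) ^ 2) :=
    mul_le_mul_of_nonneg_right h3 (by positivity)
  calc C₀ * max V 1 * W * (p + δ) + C₀ * δ * ((n : ℝ) + 1) ^ 2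
      = C₀ * max V 1 * (p * W) + C₀ * max V 1 * (δ * W) + C₀ * (δ * ((n : ℝ) + 1) ^ 2) := by ring
    _ ≤ ε ^ 2 := by linarith

/-! ## The second case -/

theorem mh_caseII {q r : ℕ} {V ε ε' : ℝ} {t s C : ℕ} (ht : 1 ≤ t)
    (hcore : ∀ (n W : ℕ) {ι : Type} [DecidableEq ι] (T : ι → Term n) (M : Finset ι)
      (ζ : ι → ℂ), Fam r W T M → 1 ≤ W → (∀ m ∈ M, ζ m ^ q = 1) → Red T ζ M →
      ∀ p δ : ℝ, 0 < p → p ≤ 1 → t ≤ p * A1 T M → p * A1 T M ≤ 2 * t → C * p * W ≤ 1 → 0 ≤ δ →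
      C * δ * ((n : ℝ) + 1) ^ 2 * 4 ^ W ≤ 1 →
      ∀ {Ω₁ Ω₂ : Type} [Fintype Ω₁] [Nonempty Ω₁] [Fintype Ω₂] [Nonempty Ω₂]
        (Z : Ω₂ → Ω₁ → Cube n) (η : Ω₂ → Finset (Fin n)) (h : Ω₂ → Fin n → Fin (2 ^ s)),
        (∀ ω₂, Bias δ (Z ω₂)) → Src p δ η h →
        (avg fun ω₂ => avg fun ω₁ =>
          ‖av fun u : Fin (2 ^ s) → Bool => pr T ζ M (mv (Z ω₂ ω₁) (η ω₂) (h ω₂) u)‖) ≤ ε)
    (hvb : ∀ (n W : ℕ) {κ : Type}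
      [DecidableEq κ] (T : κ → Term n) (M : Finset κ) (ξ : κ → ℂ), Fam r W T M → 1 ≤ W →
      (∀ m ∈ M, ‖ξ m‖ = 1) → en T ξ M ≤ V →
      ∀ p δ : ℝ, 0 < p → p ≤ 1 → C * p * W ≤ 1 → 0 ≤ δ → C * δ * ((n : ℝ) + 1) ^ 2 * 4 ^ W ≤ 1 →
      ∀ {Ω₁ Ω₂ : Type} [Fintype Ω₁] [Nonempty Ω₁] [Fintype Ω₂] [Nonempty Ω₂] {B : ℕ}
        (Z : Ω₂ → Ω₁ → Cube n) (η : Ω₂ → Finset (Fin n)) (h : Ω₂ → Fin n → Fin B),
        (∀ ω₂, Bias δ (Z ω₂)) → Src p δ η h →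
        (avg fun ω₂ => avg fun ω₁ => avg fun u : Fin B → Bool =>
          ‖pr T ξ M (mv (Z ω₂ ω₁) (η ω₂) (h ω₂) u) - pr T ξ M (Z ω₂ ω₁)‖) ≤ ε')
    {n W : ℕ} {T : ι → Term n} {M : Finset ι} {ζ : ι → ℂ} (hM : Fam r W T M)
    (hW : 1 ≤ W) (hζ : ∀ m ∈ M, ζ m ^ q = 1) (hζ1 : ∀ m ∈ M, ‖ζ m‖ = 1) (hR : Red T ζ M)
    (hA : (((2 * t * C + t) * W : ℕ) : ℝ) ≤ A1 T M)
    {T' : κ → Term n} {M' : Finset κ} {ξ : κ → ℂ} (hM' : Fam r W T' M')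
    (hξ : ∀ m ∈ M', ‖ξ m‖ = 1) (hen : en T' ξ M' ≤ V) {δ : ℝ} (hδ : 0 ≤ δ)
    (hCδ : C * δ * ((n : ℝ) + 1) ^ 2 * 4 ^ W ≤ 1)
    {Ω₂ : Type} [Fintype Ω₂] [Nonempty Ω₂]
    (η : Fin (Nat.clog 2 n + r + 1) → Ω₂ → Finset (Fin n)) (h : Ω₂ → Fin n → Fin (2 ^ s))
    (hS : ∀ l : Fin (Nat.clog 2 n + r + 1), Src ((1 / 2 : ℝ) ^ (l : ℕ)) δ (η l) h)
    {Ω₁ : Type} [Fintype Ω₁] [Nonempty Ω₁] (Y : Ω₁ → Cube n) (hY : Bias δ Y) :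
    ‖Ph Y η h (fun x => pr T ζ M x * pr T' ξ M' x)‖ ≤ ε + ε' := by
  have hW' : (1 : ℝ) ≤ W := by exact_mod_cast hW
  have ht' : (1 : ℝ) ≤ t := by exact_mod_cast ht
  have hC' : (0 : ℝ) ≤ C := Nat.cast_nonneg C
  push_cast at hA
  have hA1 : (t : ℝ) ≤ A1 T M := by
    have h1 : (0 : ℝ) ≤ 2 * t * C * W := by positivity
    have h2 : (t : ℝ) * 1 ≤ t * W := mul_le_mul_of_nonneg_left hW' (by linarith)
    nlinarith
  obtain ⟨l, h1, h2, h3⟩ := ma_level ht hA1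
  -- the level exists
  have hl : l < Nat.clog 2 n + r + 1 := by
    have h4 : A1 T M ≤ r * n := (A1_le_card T M).trans (by exact_mod_cast card_le hM.ne hM.rd)
    have h5 : (2 : ℝ) ^ l ≤ 2 ^ (Nat.clog 2 n + r) := by
      refine h3.trans (h4.trans ?_)
      rw [pow_add, mul_comm]
      have h6 : (r : ℝ) ≤ 2 ^ r := by exact_mod_cast Nat.lt_two_pow_self.le
      exact mul_le_mul (ma_clog' n) h6 (Nat.cast_nonneg _) (by positivity)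
    have h7 : l ≤ Nat.clog 2 n + r := (pow_le_pow_iff_right₀ (by norm_num)).1 h5
    omega
  have hp : (0 : ℝ) < (1 / 2) ^ l := by positivity
  have hp1 : ((1 : ℝ) / 2) ^ l ≤ 1 := pow_le_one₀ (by norm_num) (by norm_num)
  have hCp : (C : ℝ) * (1 / 2) ^ l * W ≤ 1 := by
    have h4 : 2 * t * (C * (1 / 2 : ℝ) ^ l * W) ≤ 2 * t * 1 := by
      calc 2 * t * (C * (1 / 2 : ℝ) ^ l * W) = (1 / 2 : ℝ) ^ l * (2 * t * C * W) := by ring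
        _ ≤ (1 / 2 : ℝ) ^ l * A1 T M := by
          refine mul_le_mul_of_nonneg_left ?_ hp.le
          have h5 : (0 : ℝ) ≤ t * W := by positivity
          nlinarith
        _ ≤ 2 * t * 1 := by linarith
    exact le_of_mul_le_mul_left h4 (by linarith)
  rw [ph_level Y η h ⟨l, hl⟩]
  refine ma_norm_av fun v => ?_
  obtain ⟨Z, hZ⟩ : ∃ Z : Ω₂ → Ω₁ → Cube n, Z = fun ω₂ ω₁ =>
      xo (Y ω₁) (gx (fun _ => false) (fun l => η l ω₂) (h ω₂)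
        (Function.update v ⟨l, hl⟩ fun _ => false)) := ⟨_, rfl⟩
  have hZb : ∀ ω₂, Bias δ (Z ω₂) := fun ω₂ => by
    rw [hZ]
    exact hY.xo _
  have key := hcore n W T M ζ hM hW hζ hR ((1 / 2) ^ l) δ hp hp1 h1 h2 hCp hδ hCδ
    Z (η ⟨l, hl⟩) h hZb (hS ⟨l, hl⟩)
  have key2 := hvb n W T' M' ξ hM' hW hξ hen ((1 / 2) ^ l) δ hp hp1 hCp hδ hCδ
    Z (η ⟨l, hl⟩) h hZb (hS ⟨l, hl⟩)
  have h5 : ∀ ω₂ ω₁, ‖av fun u : Fin (2 ^ s) → Bool =>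
      pr T ζ M (mv (Z ω₂ ω₁) (η ⟨l, hl⟩ ω₂) (h ω₂) u) *
        pr T' ξ M' (mv (Z ω₂ ω₁) (η ⟨l, hl⟩ ω₂) (h ω₂) u)‖ ≤
      ‖av fun u : Fin (2 ^ s) → Bool => pr T ζ M (mv (Z ω₂ ω₁) (η ⟨l, hl⟩ ω₂) (h ω₂) u)‖ +
        avg fun u : Fin (2 ^ s) → Bool =>
          ‖pr T' ξ M' (mv (Z ω₂ ω₁) (η ⟨l, hl⟩ ω₂) (h ω₂) u) - pr T' ξ M' (Z ω₂ ω₁)‖ := by
    intro ω₂ ω₁
    have h6 : ‖(av fun u : Fin (2 ^ s) → Bool =>
        pr T ζ M (mv (Z ω₂ ω₁) (η ⟨l, hl⟩ ω₂) (h ω₂) u) *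
          pr T' ξ M' (mv (Z ω₂ ω₁) (η ⟨l, hl⟩ ω₂) (h ω₂) u)) -
        av fun u : Fin (2 ^ s) → Bool =>
          pr T' ξ M' (Z ω₂ ω₁) * pr T ζ M (mv (Z ω₂ ω₁) (η ⟨l, hl⟩ ω₂) (h ω₂) u)‖ ≤
        avg fun u : Fin (2 ^ s) → Bool =>
          ‖pr T' ξ M' (mv (Z ω₂ ω₁) (η ⟨l, hl⟩ ω₂) (h ω₂) u) - pr T' ξ M' (Z ω₂ ω₁)‖ := by
      refine ma_av_diff fun u => ?_
      rw [mul_comm (pr T' ξ M' (Z ω₂ ω₁)), ← mul_sub, norm_mul, ml_norm_pr hζ1, one_mul]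
    rw [ma_av_mul_left] at h6
    have h7 : ‖pr T' ξ M' (Z ω₂ ω₁) *
        av fun u : Fin (2 ^ s) → Bool => pr T ζ M (mv (Z ω₂ ω₁) (η ⟨l, hl⟩ ω₂) (h ω₂) u)‖ =
        ‖av fun u : Fin (2 ^ s) → Bool => pr T ζ M (mv (Z ω₂ ω₁) (η ⟨l, hl⟩ ω₂) (h ω₂) u)‖ := by
      rw [norm_mul, ml_norm_pr hξ, one_mul]
    rw [← h7]
    have h8 := norm_sub_norm_le (av fun u : Fin (2 ^ s) → Bool =>
        pr T ζ M (mv (Z ω₂ ω₁) (η ⟨l, hl⟩ ω₂) (h ω₂) u) *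
          pr T' ξ M' (mv (Z ω₂ ω₁) (η ⟨l, hl⟩ ω₂) (h ω₂) u))
        (pr T' ξ M' (Z ω₂ ω₁) *
        av fun u : Fin (2 ^ s) → Bool => pr T ζ M (mv (Z ω₂ ω₁) (η ⟨l, hl⟩ ω₂) (h ω₂) u))
    linarith
  have h9 : ‖av fun ω₂ => av fun ω₁ => av fun u : Fin (2 ^ s) → Bool =>
      pr T ζ M (mv (Z ω₂ ω₁) (η ⟨l, hl⟩ ω₂) (h ω₂) u) *
        pr T' ξ M' (mv (Z ω₂ ω₁) (η ⟨l, hl⟩ ω₂) (h ω₂) u)‖ ≤
      avg fun ω₂ => avg fun ω₁ => ‖av fun u : Fin (2 ^ s) → Bool =>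
        pr T ζ M (mv (Z ω₂ ω₁) (η ⟨l, hl⟩ ω₂) (h ω₂) u) *
          pr T' ξ M' (mv (Z ω₂ ω₁) (η ⟨l, hl⟩ ω₂) (h ω₂) u)‖ :=
    (norm_av_le _).trans (avg_mono fun ω₂ => norm_av_le _)
  have h10 : (avg fun ω₂ => avg fun ω₁ => ‖av fun u : Fin (2 ^ s) → Bool =>
        pr T ζ M (mv (Z ω₂ ω₁) (η ⟨l, hl⟩ ω₂) (h ω₂) u) *
          pr T' ξ M' (mv (Z ω₂ ω₁) (η ⟨l, hl⟩ ω₂) (h ω₂) u)‖) ≤ ε + ε' := by
    refine (avg_mono fun ω₂ => avg_mono fun ω₁ => h5 ω₂ ω₁).trans ?_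
    simp only [avg_add]
    exact add_le_add key key2
  rw [hZ] at h9 h10
  exact h9.trans h10

/-! ## The theorem -/

theorem gxl (r q b : ℕ) (hq : 0 < q) (V : ℝ) {ε : ℝ} (hε : 0 < ε) : ∃ E G, NG E G ∧
    ∃ n₀ : ℕ, ∀ n ≥ n₀, ∀ {ι κ : Type} [DecidableEq ι] [DecidableEq κ]
      (T : ι → Term n) (M : Finset ι) (ζ : ι → ℂ) (T' : κ → Term n) (M' : Finset κ) (ζ' : κ → ℂ),
      Rd r T (M.filter fun m => (T m).S.card ≤ wb b n) → M.card ≤ n ^ b →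
      (∀ m ∈ M, ζ m ^ q = 1) →
      Rd r T' (M'.filter fun m => (T' m).S.card ≤ wb b n) → M'.card ≤ n ^ b →
      (∀ m ∈ M', ‖ζ' m‖ = 1) →
      ∑ m ∈ M', (1 / 2 : ℝ) ^ (T' m).S.card * ‖1 - ζ' m‖ ^ 2 ≤ V →
      ‖na (2 ^ E n) (fun p => pr T ζ M (out G n p) * pr T' ζ' M' (out G n p)) -
        av fun x => pr T ζ M x * pr T' ζ' M' x‖ ≤ ε := by
  classical
  obtain ⟨ρ, hρ0, hρ1, hρ⟩ := Xp.root_gap q hq
  obtain ⟨t, s, C₃, ht, hcore⟩ := Xl.core q r hq hρ0 hρ1 hρ (show 0 < ε / 16 by positivity)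
  obtain ⟨C₄, hvb⟩ := mh_vb r V (show 0 < ε / 16 by positivity)
  obtain ⟨C₂, hfool⟩ := foolI2 r V (show 0 < ε / 8 by positivity)
  obtain ⟨C, hC⟩ : ∃ C : ℕ, C = C₃ + C₄ := ⟨_, rfl⟩
  have hC₃ : (C₃ : ℝ) ≤ C := by
    rw [hC]
    push_cast
    linarith [(Nat.cast_nonneg C₄ : (0 : ℝ) ≤ C₄)]
  have hC₄ : (C₄ : ℝ) ≤ C := by
    rw [hC]
    push_cast
    linarith [(Nat.cast_nonneg C₃ : (0 : ℝ) ≤ C₃)]
  have hcore' : ∀ (n W : ℕ) {ι : Type} [DecidableEq ι] (T : ι → Term n) (M : Finset ι)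
      (ζ : ι → ℂ), Fam r W T M → 1 ≤ W → (∀ m ∈ M, ζ m ^ q = 1) → Red T ζ M →
      ∀ p δ : ℝ, 0 < p → p ≤ 1 → t ≤ p * A1 T M → p * A1 T M ≤ 2 * t → C * p * W ≤ 1 → 0 ≤ δ →
      C * δ * ((n : ℝ) + 1) ^ 2 * 4 ^ W ≤ 1 →
      ∀ {Ω₁ Ω₂ : Type} [Fintype Ω₁] [Nonempty Ω₁] [Fintype Ω₂] [Nonempty Ω₂]
        (Z : Ω₂ → Ω₁ → Cube n) (η : Ω₂ → Finset (Fin n)) (h : Ω₂ → Fin n → Fin (2 ^ s)),
        (∀ ω₂, Bias δ (Z ω₂)) → Src p δ η h →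
        (avg fun ω₂ => avg fun ω₁ =>
          ‖av fun u : Fin (2 ^ s) → Bool => pr T ζ M (mv (Z ω₂ ω₁) (η ω₂) (h ω₂) u)‖) ≤
            ε / 16 := by
    intro n W ι _ T M ζ a1 a2 a3 a4 p δ a5 a6 a7 a8 a9 a10 a11 Ω₁ Ω₂ _ _ _ _ Z η h a12 a13
    refine hcore n W T M ζ a1 a2 a3 a4 p δ a5 a6 a7 a8 (le_trans ?_ a9) a10 (le_trans ?_ a11)
      Z η h a12 a13
    · gcongr
    · gcongr
  have hvb' : ∀ (n W : ℕ) {κ : Type}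
      [DecidableEq κ] (T : κ → Term n) (M : Finset κ) (ξ : κ → ℂ), Fam r W T M → 1 ≤ W →
      (∀ m ∈ M, ‖ξ m‖ = 1) → en T ξ M ≤ V →
      ∀ p δ : ℝ, 0 < p → p ≤ 1 → C * p * W ≤ 1 → 0 ≤ δ → C * δ * ((n : ℝ) + 1) ^ 2 * 4 ^ W ≤ 1 →
      ∀ {Ω₁ Ω₂ : Type} [Fintype Ω₁] [Nonempty Ω₁] [Fintype Ω₂] [Nonempty Ω₂] {B : ℕ}
        (Z : Ω₂ → Ω₁ → Cube n) (η : Ω₂ → Finset (Fin n)) (h : Ω₂ → Fin n → Fin B),
        (∀ ω₂, Bias δ (Z ω₂)) → Src p δ η h →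
        (avg fun ω₂ => avg fun ω₁ => avg fun u : Fin B → Bool =>
          ‖pr T ξ M (mv (Z ω₂ ω₁) (η ω₂) (h ω₂) u) - pr T ξ M (Z ω₂ ω₁)‖) ≤ ε / 16 := by
    intro n W κ _ T M ξ a1 a2 a3 a4 p δ a5 a6 a9 a10 a11 Ω₁ Ω₂ _ _ _ _ B Z η h a12 a13
    refine hvb n W T M ξ a1 a2 a3 a4 p δ a5 a6 (le_trans ?_ a9) a10 (le_trans ?_ a11)
      Z η h a12 a13
    · gcongr
    · gcongr
  obtain ⟨C₁, hC₁⟩ : ∃ C₁ : ℕ, C₁ = 2 * t * C + t := ⟨_, rfl⟩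
  obtain ⟨K0, hK0⟩ : ∃ K0 : ℕ, K0 = C₂ * ((b + 1) * (C₁ + 1)) + C₂ := ⟨_, rfl⟩
  obtain ⟨c₀, hc₀⟩ : ∃ c₀ : ℝ, c₀ = 2 ^ (C₂ * (C₁ + 2) + C₂ * ((b + 1) * (C₁ + 1))) := ⟨_, rfl⟩
  have hc₀' : 0 ≤ c₀ := by rw [hc₀]; positivity
  obtain ⟨E, G, hG, hgen⟩ := Xp.xgen r s (K0 + (2 * b + 7))
  obtain ⟨n₀, hn₀⟩ := exists_nat_gt ((32 + 8 * c₀) / ε + 4 * 2 ^ (2 * (b + 1)) * C)
  refine ⟨E, G, hG, max n₀ 1, fun n hn ι κ _ _ T M ζ T' M' ξ hM hMc hζq hM' hMc' hξ hen₀ => ?_⟩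
  have hen : en T' ξ M' ≤ V := hen₀
  have hn1 : 1 ≤ n := (le_max_right _ _).trans hn
  have hnn : (n₀ : ℝ) ≤ n := by exact_mod_cast (le_max_left _ _).trans hn
  have hn1' : (1 : ℝ) ≤ n := by exact_mod_cast hn1
  have hC0 : (0 : ℝ) ≤ C := Nat.cast_nonneg C
  have hbig : (32 + 8 * c₀) / ε + 4 * 2 ^ (2 * (b + 1)) * C ≤ n := hn₀.le.trans hnn
  have hb1 : 32 + 8 * c₀ ≤ ε * n := by
    have h0 : (0 : ℝ) ≤ 4 * 2 ^ (2 * (b + 1)) * C := by positivity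
    have h1 : (32 + 8 * c₀) / ε ≤ n := by linarith
    rw [div_le_iff₀ hε] at h1
    linarith
  have hb2 : 4 * 2 ^ (2 * (b + 1)) * (C : ℝ) ≤ n := by
    have h1 : 0 ≤ (32 + 8 * c₀) / ε := by positivity
    linarith
  obtain ⟨δ, hδ⟩ : ∃ δ : ℝ, δ = 1 / ((n : ℝ) + 1) ^ (K0 + (2 * b + 7)) := ⟨_, rfl⟩
  have hδ0 : 0 ≤ δ := by rw [hδ]; positivity
  -- the numbers
  have e1 : 2 * (n : ℝ) ^ b * ((1 / 2) ^ wb b n + δ) ≤ ε / 8 := by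
    have h1 := mb_half b n hn1
    have h2 : δ ≤ 1 / (n : ℝ) ^ (b + 1) := by
      rw [hδ]
      apply one_div_le_one_div_of_le (by positivity)
      calc (n : ℝ) ^ (b + 1) ≤ ((n : ℝ) + 1) ^ (b + 1) :=
            pow_le_pow_left₀ (by linarith) (by linarith) _
        _ ≤ ((n : ℝ) + 1) ^ (K0 + (2 * b + 7)) := pow_le_pow_right₀ (by linarith) (by omega)
    calc 2 * (n : ℝ) ^ b * ((1 / 2) ^ wb b n + δ) ≤
          2 * (n : ℝ) ^ b * (1 / n ^ (b + 1) + 1 / n ^ (b + 1)) :=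
          mul_le_mul_of_nonneg_left (add_le_add h1 h2) (by positivity)
      _ = 4 / n := by
        rw [pow_succ]
        field_simp
        ring
      _ ≤ ε / 8 := by
        rw [div_le_div_iff₀ (by linarith) (by norm_num)]
        linarith
  have e2 : δ * 2 ^ (C₂ * (C₁ * wb b n + wb b n + 1)) * ((n : ℝ) + 1) ^ C₂ ≤ ε / 8 := by
    rw [mul_assoc]
    have h1 := mb_big C₂ C₁ b n
    have h2 := ma_pow n K0 (K0 + (2 * b + 7)) (by omega) hc₀'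
    rw [← hδ] at h2
    calc δ * (2 ^ (C₂ * (C₁ * wb b n + wb b n + 1)) * ((n : ℝ) + 1) ^ C₂) ≤
          δ * (c₀ * ((n : ℝ) + 1) ^ K0) := by
          have h3 : (0 : ℝ) ≤ ((n : ℝ) + 1) ^ C₂ := by positivity
          have h4 := mul_le_mul_of_nonneg_left (mul_le_mul_of_nonneg_right h1 h3) hδ0
          refine h4.trans (le_of_eq ?_)
          rw [hc₀, hK0, pow_add _ (C₂ * ((b + 1) * (C₁ + 1))) C₂]
          ring
      _ ≤ c₀ / ((n : ℝ) + 1) := h2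
      _ ≤ ε / 8 := by
        rw [div_le_div_iff₀ (by linarith) (by norm_num)]
        nlinarith
  have e3 : C * δ * ((n : ℝ) + 1) ^ 2 * 4 ^ wb b n ≤ 1 := by
    have h1 := mb_four b n
    have h2 := ma_pow n (2 * (b + 1) + 2) (K0 + (2 * b + 7)) (by omega)
      (show (0 : ℝ) ≤ 4 * 2 ^ (2 * (b + 1)) * C by positivity)
    rw [← hδ] at h2
    calc C * δ * ((n : ℝ) + 1) ^ 2 * 4 ^ wb b n ≤
          C * δ * ((n : ℝ) + 1) ^ 2 * (4 * 2 ^ (2 * (b + 1)) * ((n : ℝ) + 1) ^ (2 * (b + 1))) :=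
          mul_le_mul_of_nonneg_left h1 (by positivity)
      _ = δ * (4 * 2 ^ (2 * (b + 1)) * C * ((n : ℝ) + 1) ^ (2 * (b + 1) + 2)) := by ring
      _ ≤ 4 * 2 ^ (2 * (b + 1)) * C / ((n : ℝ) + 1) := h2
      _ ≤ 1 := by
        rw [div_le_one (by linarith)]
        linarith
  -- the generator
  obtain ⟨M₁, M₂, hM₁, hM₂, Y, η, h, hY, hS, hf⟩ := hgen n
  rw [← hδ] at hY hS
  have : Nonempty (Fin M₁) := ⟨⟨0, hM₁⟩⟩
  have : Nonempty (Fin M₂) := ⟨⟨0, hM₂⟩⟩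
  have hf' : na (2 ^ E n) (fun p => pr T ζ M (out G n p) * pr T' ξ M' (out G n p)) =
      Ph Y η h (fun x => pr T ζ M x * pr T' ξ M' x) :=
    hf (fun x => pr T ζ M x * pr T' ξ M' x)
  rw [hf']
  have hnorm : ∀ m ∈ M, ‖ζ m‖ = 1 := fun m hm =>
    Complex.norm_eq_one_of_pow_eq_one (hζq m hm) (by omega)
  have hcd : (M.card : ℝ) ≤ (n : ℝ) ^ b := by exact_mod_cast hMc
  have hcd' : (M'.card : ℝ) ≤ (n : ℝ) ^ b := by exact_mod_cast hMc'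
  -- the wide parts
  obtain ⟨N, hN⟩ : ∃ N : Finset ι, N = M.filter fun m => (T m).S.card ≤ wb b n := ⟨_, rfl⟩
  obtain ⟨N', hN'⟩ : ∃ N' : Finset κ, N' = M'.filter fun m => (T' m).S.card ≤ wb b n := ⟨_, rfl⟩
  rw [← hN] at hM
  rw [← hN'] at hM'
  have hU : Bias δ (fun x : Cube n => x) := Xp.Bias.mono Xp.Bias.unif hδ0
  have hNq : ∀ m ∈ N, ζ m ^ q = 1 := by
    intro m hm
    rw [hN] at hm
    exact hζq m (Finset.mem_filter.1 hm).1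
  have hN1' : ∀ m ∈ N, ‖ζ m‖ = 1 := fun m hm =>
    Complex.norm_eq_one_of_pow_eq_one (hNq m hm) (by omega)
  have hN'1 : ∀ m ∈ N', ‖ξ m‖ = 1 := by
    intro m hm
    rw [hN'] at hm
    exact hξ m (Finset.mem_filter.1 hm).1
  have hdrop : ∀ {Ω : Type} [Fintype Ω] [Nonempty Ω] (X : Ω → Cube n), Bias δ X →
      ‖(av fun ω => pr T ζ M (X ω) * pr T' ξ M' (X ω)) -
        av fun ω => pr T ζ N (X ω) * pr T' ξ N' (X ω)‖ ≤ ε / 4 := by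
    intro Ω _ _ X hX
    have a1 : (avg fun ω => ‖pr T ζ M (X ω) - pr T ζ N (X ω)‖) ≤ ε / 8 := by
      rw [hN]
      exact (mh_drop hnorm hδ0 hcd hX).trans e1
    have a2 : (avg fun ω => ‖pr T' ξ M' (X ω) - pr T' ξ N' (X ω)‖) ≤ ε / 8 := by
      rw [hN']
      exact (mh_drop hξ hδ0 hcd' hX).trans e1
    refine (mh_two (g := fun ω => pr T ζ M (X ω)) (g' := fun ω => pr T ζ N (X ω))
      (h := fun ω => pr T' ξ M' (X ω)) (h' := fun ω => pr T' ξ N' (X ω))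
      (fun ω => (ml_norm_pr hξ _).le) (fun ω => (ml_norm_pr hN1' _).le) a1 a2).trans ?_
    linarith
  have d1 : ‖Ph Y η h (fun x => pr T ζ M x * pr T' ξ M' x) -
      Ph Y η h (fun x => pr T ζ N x * pr T' ξ N' x)‖ ≤ ε / 4 :=
    ph_close Y η h fun sx => hdrop (fun ω => xo (Y ω) sx) (hY.xo sx)
  have d2 : ‖av (fun x => pr T ζ M x * pr T' ξ M' x) -
      av (fun x => pr T ζ N x * pr T' ξ N' x)‖ ≤ ε / 4 := hdrop (fun x : Cube n => x) hU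
  -- the reduced form
  have hNw : ∀ m ∈ N, (T m).S.card ≤ wb b n := by
    intro m hm
    rw [hN] at hm
    exact (Finset.mem_filter.1 hm).2
  obtain ⟨T₁, ζ₁, M₁', κ₁, hκ₁, -, hfam, hζ₁, hred, hpr⟩ := reduce hq T ζ N hM hNw hNq
  have hN1 : ∀ m ∈ M₁', ‖ζ₁ m‖ = 1 := fun m hm =>
    Complex.norm_eq_one_of_pow_eq_one (hζ₁ m hm) (by omega)
  -- the empty terms
  obtain ⟨κ₂, hκ₂, hpr₂⟩ := mh_empty (T := T') (M := N') hN'1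
  obtain ⟨N'', hN''⟩ : ∃ N'' : Finset κ, N'' = N'.filter fun m => (T' m).S ≠ ∅ := ⟨_, rfl⟩
  rw [← hN''] at hpr₂
  have hfam' : Fam r (wb b n) T' N'' := by
    refine ⟨fun m hm => ?_, fun i => ?_, fun m hm => ?_⟩
    · rw [hN''] at hm
      exact (Finset.mem_filter.1 hm).2
    · refine le_trans (Finset.card_le_card ?_) (hM' i)
      rw [hN'']
      exact Finset.filter_subset_filter _ (Finset.filter_subset _ _)
    · rw [hN'', hN'] at hm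
      exact (Finset.mem_filter.1 (Finset.mem_filter.1 hm).1).2
  have hN''1 : ∀ m ∈ N'', ‖ξ m‖ = 1 := by
    intro m hm
    rw [hN''] at hm
    exact hN'1 m (Finset.mem_filter.1 hm).1
  have hen' : en T' ξ N'' ≤ V := by
    refine le_trans (en_mono ?_) hen
    rw [hN'', hN']
    exact (Finset.filter_subset _ _).trans (Finset.filter_subset _ _)
  have hpr' : (fun x => pr T ζ N x * pr T' ξ N' x) =
      fun x => (κ₁ * κ₂) * (pr T₁ ζ₁ M₁' x * pr T' ξ N'' x) := by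
    funext x
    rw [hpr x, hpr₂ x]
    ring
  have hκ : ‖κ₁ * κ₂‖ = 1 := by rw [norm_mul, hκ₁, hκ₂, one_mul]
  have d3 : ‖Ph Y η h (fun x => pr T ζ N x * pr T' ξ N' x) -
      av (fun x => pr T ζ N x * pr T' ξ N' x)‖ ≤ ε / 4 := by
    rw [hpr', ph_mul, ma_av_mul_left, ← mul_sub, norm_mul, hκ, one_mul]
    rcases le_total (A1 T₁ M₁') ((C₁ * wb b n : ℕ) : ℝ) with hA | hA
    · refine ph_const Y η h fun sx => ?_
      have h1 := hfool n (wb b n) (C₁ * wb b n) T₁ M₁' ζ₁ T' N'' ξ hfam hA hN1 hfam' hN''1 hen'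
        (fun ω => xo (Y ω) sx) δ hδ0 (hY.xo sx)
      linarith
    · rw [hC₁] at hA
      have h1 := mh_caseII ht hcore' hvb' hfam (by unfold wb; omega) hζ₁ hN1 hred hA hfam' hN''1
        hen' hδ0 e3 η h hS Y hY
      have h2 := mh_caseII ht hcore' hvb' hfam (by unfold wb; omega) hζ₁ hN1 hred hA hfam' hN''1
        hen' hδ0 e3 η h hS (fun x : Cube n => x) hU
      rw [ph_unif] at h2
      calc ‖Ph Y η h (fun x => pr T₁ ζ₁ M₁' x * pr T' ξ N'' x) -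
            av (fun x => pr T₁ ζ₁ M₁' x * pr T' ξ N'' x)‖ ≤
            ‖Ph Y η h (fun x => pr T₁ ζ₁ M₁' x * pr T' ξ N'' x)‖ +
            ‖av (fun x => pr T₁ ζ₁ M₁' x * pr T' ξ N'' x)‖ := norm_sub_le _ _
        _ ≤ ε / 4 := by linarith
  have h12 := norm_sub_le_norm_sub_add_norm_sub (Ph Y η h (fun x => pr T ζ M x * pr T' ξ M' x))
    (Ph Y η h (fun x => pr T ζ N x * pr T' ξ N' x)) (av (fun x => pr T ζ M x * pr T' ξ M' x))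
  have h13 := norm_sub_le_norm_sub_add_norm_sub (Ph Y η h (fun x => pr T ζ N x * pr T' ξ N' x))
    (av (fun x => pr T ζ N x * pr T' ξ N' x)) (av (fun x => pr T ζ M x * pr T' ξ M' x))
  rw [norm_sub_rev (av (fun x => pr T ζ N x * pr T' ξ N' x))] at h13
  linarith

end Pool.Agent.MP_ca1109_lc.Xa
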