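import Pool.Agent.MP_ca1109_lc.Xt.BP
import Pool.Agent.MP_ca1109_lc.Pb.AT

/-!
# Products of roots of unity of true terms, phases of bounded energy and functions of heavy terms

`U` is a set of functions closed under products.

* `PB U r q K V f`: `f` is a function in `U`, times a product of weights of order `q` of true terms,
  times a function in `At r K V` (a function of the true heavy terms of total mass at most `K`, times a
  product of unimodular weights of total energy at most `V`).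
* `PC U r q K V B f`: `f` is a combination of such functions with coefficients of total size at most
  `B`.
* `FP U r q K V ε X`: the string `X` fools these products with error at most `ε`.
-/

namespace Pool.Agent.MP_ca1109_lc.Xa

open Finset Pool.Agent.H66 Pool.Agent.MP_ca1109_lc.Mpg Pool.Agent.MP_ca1109_lc.Agp
open Pool.Agent.MP_ca1109_lc.Dnf (Cube ch one one_le one_nonneg one_true one_false Term)
open Pool.Agent.MP_ca1109_lc.Xl (Tr pr Rd)
open Pool.Agent.MP_ca1109_lc.Xt (BP FB BC rd_empty rd_mono rd_sub pr_empty pr_disj rd_disj)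
open Pool.Agent.MP_ca1109_lc.Pb (At HCt FoolA tt)
open Pool.Agent.MP_ca1109_lc.Xh (Ph Ph_ind Ph_diff xfi_close xfi_norm_av_sub)

variable {n : ℕ} {U : Submonoid (Cube n → ℂ)}

/-- A function in `U`, times a product of weights of order `q` of true terms, times a function of
the true heavy terms and phases of bounded energy. -/
def PB (U : Submonoid (Cube n → ℂ)) (r q : ℕ) (K V : ℝ) (f : Cube n → ℂ) : Prop :=
  ∃ u ∈ U, ∃ (ι : Type) (_ : DecidableEq ι) (T : ι → Term n) (M : Finset ι)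
    (ζ : ι → ℂ) (g : Cube n → ℂ),
    Rd r T M ∧ (∀ m ∈ M, (T m).S ≠ ∅) ∧ (∀ m ∈ M, ζ m ^ q = 1) ∧ At r K V g ∧
    ∀ x, f x = u x * (pr T ζ M x * g x)

/-- The string `X` fools the products with error at most `ε`. -/
def FP (U : Submonoid (Cube n → ℂ)) (r q : ℕ) (K V ε : ℝ) {Ω : Type*} [Fintype Ω]
    (X : Ω → Cube n) : Prop :=
  ∀ f : Cube n → ℂ, PB U r q K V f → ‖av (fun ω => f (X ω)) - av f‖ ≤ ε

/-- Combinations of the products with coefficients of total size at most `B`. -/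
def PC (U : Submonoid (Cube n → ℂ)) (r q : ℕ) (K V B : ℝ) (f : Cube n → ℂ) : Prop :=
  ∃ (ι : Type) (_ : Fintype ι) (c : ι → ℂ) (F : ι → Cube n → ℂ),
    (∀ i, PB U r q K V (F i)) ∧ (∑ i, ‖c i‖ ≤ B) ∧ ∀ x, f x = ∑ i, c i * F i x

/-! ## Products -/

theorem PB.mono {r r' q q' : ℕ} {K K' V V' : ℝ} {f : Cube n → ℂ} (h : PB U r q K V f) (hr : r ≤ r')
    (hq : q ∣ q') (hK : K ≤ K') (hV : V ≤ V') : PB U r' q' K' V' f := by
  obtain ⟨u, hu, ι, i1, T, M, ζ, g, h1, h2, h3, h4, h5⟩ := h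
  refine ⟨u, hu, ι, i1, T, M, ζ, g, rd_mono h1 hr, h2, fun m hm => ?_, h4.mono hr hK hV, h5⟩
  obtain ⟨a, rfl⟩ := hq
  rw [pow_mul, h3 m hm, one_pow]

theorem PB.mul {r r' q : ℕ} {K K' V V' : ℝ} {f g : Cube n → ℂ} (h : PB U r q K V f)
    (h' : PB U r' q K' V' g) : PB U (r + r') q (K + K') (V + V') (fun x => f x * g x) := by
  classical
  obtain ⟨u, hu, ι, i1, T, M, ζ, p, h1, h2, h3, h4, h5⟩ := h
  obtain ⟨u', hu', ι', i1', T', M', ζ', p', h1', h2', h3', h4', h5'⟩ := h'
  refine ⟨u * u', U.mul_mem hu hu', ι ⊕ ι', inferInstance, Sum.elim T T', M.disjSum M',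
    Sum.elim ζ ζ', fun x => p x * p' x, rd_disj h1 h1', ?_, ?_, h4.mul h4', fun x => ?_⟩
  · rintro (m | m) hm
    · exact h2 m (inl_mem_disjSum.1 hm)
    · exact h2' m (inr_mem_disjSum.1 hm)
  · rintro (m | m) hm
    · exact h3 m (inl_mem_disjSum.1 hm)
    · exact h3' m (inr_mem_disjSum.1 hm)
  · show f x * g x = u x * u' x * _
    rw [pr_disj, h5, h5']
    ring

theorem PB.one (r q : ℕ) {K V : ℝ} (hK : 0 ≤ K) (hV : 0 ≤ V) :
    PB U r q K V (fun _ : Cube n => 1) := by
  refine ⟨1, U.one_mem, Empty, inferInstance, Empty.elim, ∅, Empty.elim, fun _ => 1,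
    rd_empty _ _, fun m => m.elim, fun m => m.elim, At.one r hK hV, fun x => ?_⟩
  show (1 : ℂ) = 1 * _
  rw [pr_empty Empty.elim Empty.elim x, one_mul, one_mul]

/-- Functions of the true heavy terms and phases of bounded energy. -/
theorem PB.at {r q : ℕ} {K V : ℝ} {g : Cube n → ℂ} (h : At r K V g) : PB U r q K V g := by
  refine ⟨1, U.one_mem, Empty, inferInstance, Empty.elim, ∅, Empty.elim, g,
    rd_empty _ _, fun m => m.elim, fun m => m.elim, h, fun x => ?_⟩
  show g x = 1 * _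
  rw [pr_empty Empty.elim Empty.elim x, one_mul, one_mul]

/-- Phases of bounded energy. -/
theorem at_energy {κ : Type} {r : ℕ} {K V : ℝ} (hK : 0 ≤ K) {T : κ → Term n}
    {M : Finset κ} {ζ : κ → ℂ} (hM : Rd r T M) (h0 : ∀ m ∈ M, (T m).S ≠ ∅)
    (hζ : ∀ m ∈ M, ‖ζ m‖ = 1)
    (hV : ∑ m ∈ M, (1 / 2 : ℝ) ^ (T m).S.card * ‖1 - ζ m‖ ^ 2 ≤ V) : At r K V (pr T ζ M) := by
  classical
  refine ⟨{m // m ∈ M}, inferInstance, fun j => T j.1, fun j => ζ j.1, ∅, fun _ => 1,
    fun j => nonempty_iff_ne_empty.2 (h0 _ j.2), fun v => ?_, fun j => hζ _ j.2,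
    fun _ => norm_one.le, ?_, ?_, fun x => ?_⟩
  · refine le_trans (le_of_eq ?_) (hM v)
    rw [← card_map (Function.Embedding.subtype _)]
    congr 1
    ext m
    simp only [mem_map, mem_filter, mem_univ, true_and, Function.Embedding.subtype_apply]
    constructor
    · rintro ⟨j, hj, rfl⟩
      exact ⟨j.2, hj⟩
    · rintro ⟨hm, hv⟩
      exact ⟨⟨m, hm⟩, hv, rfl⟩
  · rw [Finset.sum_coe_sort M fun m => (1 / 2 : ℝ) ^ (T m).S.card * ‖1 - ζ m‖ ^ 2]
    exact hV
  · rw [sum_empty]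
    exact hK
  · unfold tt pr
    rw [one_mul, ← Finset.prod_coe_sort M]
    exact prod_congr rfl fun j _ => if_congr Iff.rfl rfl rfl

theorem PB.bp {r q : ℕ} {K V : ℝ} (hK : 0 ≤ K) {f : Cube n → ℂ} (h : BP U r q V f) :
    PB U r q K V f := by
  obtain ⟨u, hu, ι, κ, i1, i2, T, M, ζ, T', M', ζ', h1, h2, h3, h4, h5, h6, h7, h8⟩ := h
  exact ⟨u, hu, ι, i1, T, M, ζ, pr T' ζ' M', h1, h2, h3, at_energy hK h4 h5 h6 h7, h8⟩

theorem FP.mono {r r' q q' : ℕ} {K K' V V' ε ε' : ℝ} (hr : r ≤ r') (hq : q ∣ q') (hK : K ≤ K')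
    (hV : V ≤ V') (hε : ε' ≤ ε) {Ω : Type*} [Fintype Ω] {X : Ω → Cube n}
    (h : FP U r' q' K' V' ε' X) : FP U r q K V ε X :=
  fun f hf => (h f (hf.mono hr hq hK hV)).trans hε

theorem FP.id (r q : ℕ) (K V : ℝ) {ε : ℝ} (hε : 0 ≤ ε) :
    FP U r q K V ε (fun x : Cube n => x) := by
  intro f _
  rw [show (av fun ω : Cube n => f ω) = av f from rfl, sub_self, norm_zero]
  exact hε

/-- Such a string fools the products without heavy terms. -/
theorem FP.fb {r q : ℕ} {K V ε : ℝ} (hK : 0 ≤ K) {Ω : Type*} [Fintype Ω] {X : Ω → Cube n}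
    (h : FP U r q K V ε X) : FB U r q V ε X := fun f hf => h f (PB.bp hK hf)

/-- Such a string fools the functions of heavy terms and phases of bounded energy. -/
theorem FP.foolA {r q : ℕ} {K V ε : ℝ} {Ω : Type} [Fintype Ω] {X : Ω → Cube n}
    (h : FP U r q K V ε X) : FoolA r K V ε X := fun f hf => h f (PB.at hf)

/-! ## Combinations -/

section pc

variable {r r' q : ℕ} {K K' V V' B B' : ℝ} {f g : Cube n → ℂ}

theorem PC.mono {q' : ℕ} (h : PC U r q K V B f) (hr : r ≤ r') (hq : q ∣ q') (hK : K ≤ K')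
    (hV : V ≤ V') (hB : B ≤ B') : PC U r' q' K' V' B' f := by
  obtain ⟨ι, hι, c, F, h1, h2, h3⟩ := h
  exact ⟨ι, hι, c, F, fun i => (h1 i).mono hr hq hK hV, h2.trans hB, h3⟩

theorem PC.of_eq (h : PC U r q K V B f) (hfg : ∀ x, f x = g x) : PC U r q K V B g := by
  obtain ⟨ι, hι, c, F, h1, h2, h3⟩ := h
  exact ⟨ι, hι, c, F, h1, h2, fun x => (hfg x).symm.trans (h3 x)⟩

theorem PC.const (r q : ℕ) {K V : ℝ} (hK : 0 ≤ K) (hV : 0 ≤ V) (c : ℂ) :
    PC U r q K V ‖c‖ (fun _ : Cube n => c) := by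
  refine ⟨Unit, inferInstance, fun _ => c, fun _ _ => 1, fun _ => PB.one r q hK hV, ?_,
    fun x => ?_⟩
  · simp
  · simp

theorem PC.pb (h : PB U r q K V f) : PC U r q K V 1 f := by
  refine ⟨Unit, inferInstance, fun _ => 1, fun _ => f, fun _ => h, ?_, fun x => ?_⟩
  · simp
  · simp

theorem PC.bc (hK : 0 ≤ K) (h : BC U r q V B f) : PC U r q K V B f := by
  obtain ⟨ι, hι, c, F, h1, h2, h3⟩ := h
  exact ⟨ι, hι, c, F, fun i => PB.bp hK (h1 i), h2, h3⟩

theorem PC.hct (h : HCt r K V B f) : PC U r q K V B f := by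
  obtain ⟨ι, hι, c, F, h1, h2, h3⟩ := h
  exact ⟨ι, hι, c, F, fun i => PB.at (h1 i), h2, h3⟩

theorem PC.add (h : PC U r q K V B f) (h' : PC U r q K V B' g) :
    PC U r q K V (B + B') (fun x => f x + g x) := by
  obtain ⟨ι, hι, c, F, h1, h2, h3⟩ := h
  obtain ⟨ι', hι', c', F', h1', h2', h3'⟩ := h'
  refine ⟨ι ⊕ ι', inferInstance, Sum.elim c c', Sum.elim F F', ?_, ?_, fun x => ?_⟩
  · rintro (i | i)
    · exact h1 i
    · exact h1' i
  · rw [Fintype.sum_sum_type]
    exact add_le_add h2 h2'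
  · show f x + g x = _
    rw [Fintype.sum_sum_type, h3, h3']
    rfl

theorem PC.smul (a : ℂ) (h : PC U r q K V B f) :
    PC U r q K V (‖a‖ * B) (fun x => a * f x) := by
  obtain ⟨ι, hι, c, F, h1, h2, h3⟩ := h
  refine ⟨ι, hι, fun i => a * c i, F, h1, ?_, fun x => ?_⟩
  · simp only [norm_mul, ← mul_sum]
    exact mul_le_mul_of_nonneg_left h2 (norm_nonneg _)
  · show a * f x = ∑ i, a * c i * F i x
    rw [h3, mul_sum]
    exact sum_congr rfl fun i _ => by ring

theorem PC.mul (h : PC U r q K V B f) (h' : PC U r' q K' V' B' g) :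
    PC U (r + r') q (K + K') (V + V') (B * B') (fun x => f x * g x) := by
  obtain ⟨ι, hι, c, F, h1, h2, h3⟩ := h
  obtain ⟨ι', hι', c', F', h1', h2', h3'⟩ := h'
  refine ⟨ι × ι', inferInstance, fun i => c i.1 * c' i.2, fun i x => F i.1 x * F' i.2 x,
    fun i => (h1 i.1).mul (h1' i.2), ?_, fun x => ?_⟩
  · rw [Fintype.sum_prod_type]
    simp only [norm_mul, ← mul_sum, ← sum_mul]
    exact mul_le_mul h2 h2' (sum_nonneg fun _ _ => norm_nonneg _)
      ((sum_nonneg fun _ _ => norm_nonneg _).trans h2)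
  · show f x * g x = _
    rw [h3, h3', Fintype.sum_prod_type, sum_mul_sum]
    refine sum_congr rfl fun i _ => sum_congr rfl fun j _ => ?_
    ring

theorem PC.sum {ι : Type*} (hK : 0 ≤ K) (hV : 0 ≤ V) (s : Finset ι) (b : ι → ℝ)
    (F : ι → Cube n → ℂ) (h : ∀ i ∈ s, PC U r q K V (b i) (F i)) :
    PC U r q K V (∑ i ∈ s, b i) (fun x => ∑ i ∈ s, F i x) := by
  classical
  induction s using Finset.induction_on with
  | empty =>
    simp only [sum_empty]
    exact (PC.const r q hK hV 0).mono le_rfl dvd_rfl le_rfl le_rfl (by simp)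
  | insert a s ha ih =>
    simp only [sum_insert ha]
    exact (h a (mem_insert_self a s)).add (ih fun i hi => h i (mem_insert_of_mem hi))

theorem PC.prod {ι : Type*} (s : Finset ι) (F : ι → Cube n → ℂ)
    (h : ∀ i ∈ s, PC U r q K V B (F i)) :
    PC U (s.card * r) q (s.card * K) (s.card * V) (B ^ s.card) (fun x => ∏ i ∈ s, F i x) := by
  classical
  induction s using Finset.induction_on with
  | empty =>
    simp only [prod_empty, card_empty, Nat.cast_zero, zero_mul, pow_zero]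
    exact (PC.const 0 q le_rfl le_rfl 1).mono le_rfl dvd_rfl le_rfl le_rfl (by simp)
  | insert a s ha ih =>
    simp only [prod_insert ha, card_insert_of_notMem ha]
    refine ((h a (mem_insert_self a s)).mul (ih fun i hi => h i (mem_insert_of_mem hi))).mono
      (le_of_eq (by ring)) dvd_rfl (le_of_eq (by push_cast; ring)) (le_of_eq (by push_cast; ring))
      (le_of_eq (by ring))

theorem FP.pc {ε : ℝ} (hε : 0 ≤ ε) {Ω : Type*} [Fintype Ω] {X : Ω → Cube n}
    (hX : FP U r q K V ε X) (hf : PC U r q K V B f) :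
    ‖av (fun ω => f (X ω)) - av f‖ ≤ B * ε := by
  obtain ⟨ι, hι, c, F, h1, h2, h3⟩ := hf
  have e : av (fun ω => f (X ω)) = ∑ i, c i * av (fun ω => F i (X ω)) := by
    unfold av
    simp only [h3]
    rw [sum_comm, sum_div]
    refine sum_congr rfl fun i _ => ?_
    rw [← mul_sum, mul_div_assoc]
  have e2 : av f = ∑ i, c i * av (F i) := by
    unfold av
    simp only [h3]
    rw [sum_comm, sum_div]
    refine sum_congr rfl fun i _ => ?_
    rw [← mul_sum, mul_div_assoc]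
  rw [e, e2, ← sum_sub_distrib]
  refine (norm_sum_le _ _).trans ?_
  calc ∑ i, ‖c i * av (fun ω => F i (X ω)) - c i * av (F i)‖
      ≤ ∑ i, ‖c i‖ * ε := by
        refine sum_le_sum fun i _ => ?_
        rw [← mul_sub, norm_mul]
        exact mul_le_mul_of_nonneg_left (hX (F i) (h1 i)) (norm_nonneg _)
    _ = (∑ i, ‖c i‖) * ε := by rw [sum_mul]
    _ ≤ B * ε := mul_le_mul_of_nonneg_right h2 hε

end pc

/-! ## Boolean functions of approximable tests -/

theorem Ph_pc {k : ℕ} (F : (Fin k → Bool) → Bool) {r q : ℕ} {K V C : ℝ} (hK : 0 ≤ K) (hV : 0 ≤ V)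
    (hC : 0 ≤ C) (G : Fin k → Cube n → ℂ) (hG : ∀ i, PC U r q K V C (G i)) :
    PC U (k * r) q (k * K) (k * V) (2 ^ k * (1 + C) ^ k) (fun x => Ph F (fun i => G i x)) := by
  have h1 : ∀ A : Fin k → Bool, PC U (k * r) q (k * K) (k * V) ((1 + C) ^ k)
      (fun x => ((ind (F A) : ℝ) : ℂ) * ∏ i, (if A i = true then G i x else 1 - G i x)) := by
    intro A
    have h2 : ∀ i : Fin k, PC U r q K V (1 + C)
        (fun x => (if A i = true then G i x else 1 - G i x)) := by
      intro i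
      by_cases hA : A i = true
      · simp only [hA, if_true]
        exact (hG i).mono le_rfl dvd_rfl le_rfl le_rfl (by linarith)
      · simp only [hA]
        have := (PC.const (n := n) r q hK hV 1).add ((hG i).smul (-1))
        refine (this.of_eq fun x => ?_).mono le_rfl dvd_rfl le_rfl le_rfl ?_
        · simp only [Bool.false_eq_true, if_false]
          ring
        · simp
    have h3 := PC.prod (univ : Finset (Fin k)) _ fun i _ => h2 i
    have h4 := h3.smul ((ind (F A) : ℝ) : ℂ)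
    rw [card_univ, Fintype.card_fin] at h4
    refine h4.mono le_rfl dvd_rfl le_rfl le_rfl ?_
    rw [Complex.norm_real, Real.norm_of_nonneg (ind_nonneg _)]
    calc ind (F A) * (1 + C) ^ k ≤ 1 * (1 + C) ^ k :=
          mul_le_mul_of_nonneg_right (ind_le_one _) (by positivity)
      _ = _ := one_mul _
  have h2 := PC.sum (by positivity) (by positivity) (univ : Finset (Fin k → Bool))
    (fun _ => (1 + C) ^ k) _ fun A _ => h1 A
  refine (h2.of_eq fun x => rfl).mono le_rfl dvd_rfl le_rfl le_rfl (le_of_eq ?_)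
  rw [sum_const, card_univ, Fintype.card_fun, Fintype.card_bool, Fintype.card_fin, nsmul_eq_mul]
  push_cast
  rfl

/-- Boolean functions of approximable tests are fooled. -/
theorem xpb_bool {k r q : ℕ} {K V ε₀ ε₁ C : ℝ} (hε₀ : 0 ≤ ε₀) (hK : 0 ≤ K) (hV : 0 ≤ V)
    (hC : 0 ≤ C) (F : (Fin k → Bool) → Bool)
    (b : Fin k → Cube n → Bool) (G : Fin k → Cube n → ℂ) (h01 : ∀ i x, ‖G i x‖ ≤ 2)
    (hG : ∀ i, PC U r q K V C (G i)) {Ω : Type*} [Fintype Ω] {X : Ω → Cube n}
    (hX : FP U (k * r) q (k * K) (k * V) ε₀ X)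
    (hU : ∀ i, (avg fun x => ‖((ind (b i x) : ℝ) : ℂ) - G i x‖) ≤ ε₁)
    (hXi : ∀ i, (avg fun ω => ‖((ind (b i (X ω)) : ℝ) : ℂ) - G i (X ω)‖) ≤ ε₁) :
    |(avg fun ω => ind (F fun i => b i (X ω))) - avg fun x => ind (F fun i => b i x)| ≤
      2 * (2 ^ k * (3 ^ k * (k * ε₁))) + 2 ^ k * (1 + C) ^ k * ε₀ := by
  have h1 := xfi_close F b G h01 X hXi
  have h2 := xfi_close F b G h01 (fun x : Cube n => x) hU
  have h3 := hX.pc hε₀ (Ph_pc F hK hV hC G hG)
  rw [← Real.norm_eq_abs, ← Complex.norm_real, Complex.ofReal_sub, Xg.xth_ofReal_avg,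
    Xg.xth_ofReal_avg]
  have e : (av fun ω => ((ind (F fun i => b i (X ω)) : ℝ) : ℂ)) -
      (av fun x : Cube n => ((ind (F fun i => b i x) : ℝ) : ℂ)) =
      ((av fun ω => ((ind (F fun i => b i (X ω)) : ℝ) : ℂ)) - av fun ω => Ph F fun i => G i (X ω)) +
      (((av fun ω => Ph F fun i => G i (X ω)) - av fun x => Ph F fun i => G i x) -
      ((av fun x : Cube n => ((ind (F fun i => b i x) : ℝ) : ℂ)) - av fun x => Ph F fun i => G i x)) := by
    ring
  rw [e]
  refine (norm_add_le _ _).trans ?_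
  refine (add_le_add h1 ((norm_sub_le _ _).trans (add_le_add h3 h2))).trans_eq ?_
  ring

end Pool.Agent.MP_ca1109_lc.Xa
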