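import Pool.Agent.MP_ca1109_lc.Xg.BH

/-!
# Approximations of bounded functions of the heavy terms times products of unimodular weights
-/

namespace Pool.Agent.MP_ca1109_lc.Xa

open Finset Pool.Agent.MP_ca1109_lc.Mpg Pool.Agent.MP_ca1109_lc.Agp
open Pool.Agent.MP_ca1109_lc
open Pool.Agent.MP_ca1109_lc.Dnf (Cube ch one Term E E_mono E_smul E_add)
open Pool.Agent.MP_ca1109_lc.Xp (Sp Bias ctr gt_moment gt_ctr_sp spb_avg_E)
open Pool.Agent.MP_ca1109_lc.Xg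

variable {n : ℕ}

theorem ty3_choose (N k : ℕ) : (N.choose (k + 1) : ℝ) * 6 ^ (k + 1) ≤ 7 ^ N := by
  by_cases hN : k + 1 ≤ N
  · have h := add_pow (6 : ℝ) 1 N
    rw [show (6 : ℝ) + 1 = 7 by norm_num] at h
    rw [h]
    have := single_le_sum (f := fun m => (6 : ℝ) ^ m * 1 ^ (N - m) * (N.choose m : ℝ))
      (s := range (N + 1)) (fun i _ => by positivity) (mem_range.2 (Nat.lt_succ_of_le hN))
    simp only [one_pow, mul_one] at this ⊢
    linarith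
  · rw [Nat.choose_eq_zero_of_lt (by omega)]
    simp

/-- The heavy remainder. -/
theorem ty3_sq {κ : Type} [DecidableEq κ] (H : Finset κ) (U : κ → Term n) (k : ℕ) (x : Cube n) :
    (2 * 3 ^ (k + 1) * rk H U k x) ^ 2 ≤ 4 * (1 / 4) ^ (k + 1) * ∏ u ∈ H, (1 + 48 * (U u).f x) := by
  rw [rk_eq, bh_pow]
  set N := (hx H U x).card
  have h1 := ty3_choose N k
  have h2 : (0 : ℝ) ≤ (N.choose (k + 1) : ℝ) * 6 ^ (k + 1) := by positivity
  have h3 := pow_le_pow_left₀ h2 h1 2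
  have h4 : (2 * 3 ^ (k + 1) * (N.choose (k + 1) : ℝ)) ^ 2 =
      4 * (1 / 4) ^ (k + 1) * ((N.choose (k + 1) : ℝ) * 6 ^ (k + 1)) ^ 2 := by
    have h5 : (1 / 4 : ℝ) ^ (k + 1) * (6 ^ (k + 1)) ^ 2 = (3 ^ (k + 1)) ^ 2 := by
      rw [← pow_mul, ← pow_mul, mul_comm (k + 1) 2, pow_mul, pow_mul, ← mul_pow]
      norm_num
    calc (2 * 3 ^ (k + 1) * (N.choose (k + 1) : ℝ)) ^ 2
        = 4 * (N.choose (k + 1) : ℝ) ^ 2 * (3 ^ (k + 1)) ^ 2 := by ring
      _ = 4 * (N.choose (k + 1) : ℝ) ^ 2 * ((1 / 4 : ℝ) ^ (k + 1) * (6 ^ (k + 1)) ^ 2) := by rw [h5]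
      _ = _ := by ring
  rw [h4, show (1 : ℝ) + 48 = 7 ^ 2 by norm_num, ← pow_mul, mul_comm 2 N, pow_mul]
  exact mul_le_mul_of_nonneg_left h3 (by positivity)

theorem ty3_four {κ : Type} [DecidableEq κ] (H : Finset κ) (U : κ → Term n) (k : ℕ) (x : Cube n) :
    (2 * 3 ^ (k + 1) * rk H U k x) ^ 4 ≤ ∏ u ∈ H, (1 + 2400 * (U u).f x) := by
  have h1 := ty3_sq H U k x
  rw [bh_pow] at h1 ⊢
  set N := (hx H U x).card
  have h2 := pow_le_pow_left₀ (sq_nonneg _) h1 2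
  have h3 : (4 * (1 / 4 : ℝ) ^ (k + 1)) ≤ 1 := by
    rw [pow_succ]
    have : (1 / 4 : ℝ) ^ k ≤ 1 := pow_le_one₀ (by norm_num) (by norm_num)
    linarith
  calc (2 * 3 ^ (k + 1) * rk H U k x) ^ 4 = ((2 * 3 ^ (k + 1) * rk H U k x) ^ 2) ^ 2 := by ring
    _ ≤ (4 * (1 / 4) ^ (k + 1) * (1 + 48) ^ N) ^ 2 := h2
    _ ≤ (1 * (1 + 48) ^ N) ^ 2 := pow_le_pow_left₀ (by positivity)
        (mul_le_mul_of_nonneg_right h3 (by positivity)) 2
    _ = (1 + 2400) ^ N := by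
        rw [one_mul, ← pow_mul, mul_comm N 2, pow_mul]
        norm_num

theorem taylor3 (r : ℕ) (K V : ℝ) {ε : ℝ} (hε : 0 < ε) : ∃ C : ℕ, ∀ (n : ℕ) {ι κ : Type}
    [DecidableEq κ] (T : ι → Term n) (J : Finset ι) (z : ι → ℂ) (U : κ → Term n) (H : Finset κ)
    (ψ : Finset κ → ℂ), (∀ v, (J.filter fun j => v ∈ (T j).S).card ≤ r) → (∀ j ∈ J, ‖z j‖ = 1) →
    ∑ j ∈ J, (1 / 2 : ℝ) ^ (T j).S.card * ‖1 - z j‖ ^ 2 ≤ V →
    (∀ v, (H.filter fun u => v ∈ (U u).S).card ≤ r) → ∑ u ∈ H, (1 / 2 : ℝ) ^ (U u).S.card ≤ K →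
    (∀ I, ‖ψ I‖ ≤ 1) → ∃ (t : Cube n → ℂ) (R : Cube n → ℝ),
      (∀ x, ‖ψ (hx H U x) * tj J T z x - t x‖ ≤ R x) ∧ (avg fun x => (R x) ^ 2) ≤ ε ∧
      Sp ((C * ((J.card : ℝ) + H.card + 1)) ^ C) t ∧
      Sp ((C * ((J.card : ℝ) + H.card + 1)) ^ C) (fun x => ((R x : ℝ) : ℂ)) := by
  obtain ⟨E1, hE1⟩ : ∃ E1 : ℝ, E1 = Real.exp (((1 + 48) ^ (r + 1) - 1) / ((r + 1 : ℕ) : ℝ) * K) :=
    ⟨_, rfl⟩
  obtain ⟨E2, hE2⟩ : ∃ E2 : ℝ, E2 = Real.exp (((1 + 2400) ^ (r + 1) - 1) / ((r + 1 : ℕ) : ℝ) * K) :=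
    ⟨_, rfl⟩
  obtain ⟨E3, hE3⟩ : ∃ E3 : ℝ, E3 = Real.exp (((r + 1 : ℕ) : ℝ) * 8 ^ 2 *
    Real.exp (((r + 1 : ℕ) : ℝ) * 8 * Real.pi) * (3 * V)) := ⟨_, rfl⟩
  have hE1p : 0 < E1 := by rw [hE1]; exact Real.exp_pos _
  have hE2p : 0 < E2 := by rw [hE2]; exact Real.exp_pos _
  have hE3p : 0 < E3 := by rw [hE3]; exact Real.exp_pos _
  have hε12 : 0 < ε / 12 := by positivity
  obtain ⟨k, hk⟩ : ∃ k : ℕ, 4 * (1 / 4) ^ (k + 1) * E1 ≤ ε / 12 := by
    obtain ⟨k, hk⟩ := exists_pow_lt_of_lt_one (div_pos hε12 (by positivity : 0 < E1))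
      (by norm_num : (1 / 4 : ℝ) < 1)
    refine ⟨k, ?_⟩
    rw [lt_div_iff₀ (by positivity)] at hk
    rw [pow_succ]
    linarith
  obtain ⟨τ, hτ⟩ : ∃ τ : ℝ, τ = (ε / 12) / E2 := ⟨_, rfl⟩
  have hτp : 0 < τ := by rw [hτ]; positivity
  obtain ⟨m, hm1, hm2⟩ : ∃ m : ℕ, 2 * E3 * (1 / 256) ^ m ≤ ε / 12 ∧
      2 * E3 * (1 / 256) ^ m ≤ ε / 12 * (4 * τ) := by
    obtain ⟨m, hm⟩ := exists_pow_lt_of_lt_one
      (div_pos (lt_min hε12 (by positivity : 0 < ε / 12 * (4 * τ))) (by positivity : 0 < 2 * E3))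
      (by norm_num : (1 / 256 : ℝ) < 1)
    rw [lt_div_iff₀ (by positivity)] at hm
    refine ⟨m, ?_, ?_⟩
    · have := min_le_left (ε / 12) (ε / 12 * (4 * τ))
      linarith
    · have := min_le_right (ε / 12) (ε / 12 * (4 * τ))
      linarith
  refine ⟨(6 * 3 ^ (k + 1) + (k + 1) * (2 * m) + 1) * 18 * (k + 2 + 2 * m), ?_⟩
  intro n ι κ _ T J z U H ψ hread hz hV hread' hK hψ
  set a : ι → ℝ := fun j => (z j).arg with ha
  have haα : ∀ j ∈ J, |a j| ≤ Real.pi := fun j _ => Complex.abs_arg_le_pi _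
  have hVa : ∑ j ∈ J, a j ^ 2 * (1 / 2 : ℝ) ^ (T j).S.card ≤ 3 * V := by
    calc ∑ j ∈ J, (z j).arg ^ 2 * (1 / 2 : ℝ) ^ (T j).S.card
        ≤ ∑ j ∈ J, 3 * ((1 / 2 : ℝ) ^ (T j).S.card * ‖1 - z j‖ ^ 2) := sum_le_sum fun j hj => by
          have := mul_le_mul_of_nonneg_right (bb_arg (hz j hj))
            (by positivity : (0 : ℝ) ≤ (1 / 2) ^ (T j).S.card)
          linarith
      _ = 3 * ∑ j ∈ J, (1 / 2 : ℝ) ^ (T j).S.card * ‖1 - z j‖ ^ 2 := by rw [mul_sum]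
      _ ≤ 3 * V := by linarith
  obtain ⟨y, hy⟩ : ∃ y : Cube n → ℝ, y = ctr J T a := ⟨_, rfl⟩
  obtain ⟨b, hb⟩ : ∃ b : ℝ, b = 9 * ((J.card : ℝ) + 1) := ⟨_, rfl⟩
  have hJ0 : (0 : ℝ) ≤ J.card := Nat.cast_nonneg _
  have hH0 : (0 : ℝ) ≤ H.card := Nat.cast_nonneg _
  have hb1 : 1 ≤ b := by rw [hb]; linarith
  have hys : Sp b (fun x => ((y x : ℝ) : ℂ)) := by
    rw [hy]
    refine (gt_ctr_sp J T a (by norm_num : (0 : ℝ) ≤ 4) (fun j hj => (haα j hj).trans ?_)).mono ?_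
    · have := Real.pi_lt_d2
      linarith
    · rw [hb]; norm_num
  -- moments of the remainder
  have hmom : ∀ q : ℕ, E (brm q y) ≤ 2 * E3 / 8 ^ (2 * q) := fun q => by
    rw [hy, hE3]
    exact gt_moment (Nat.succ_pos r) J T (fun v => (hread v).trans (Nat.le_succ r)) a haα hVa
      (by norm_num : (0 : ℝ) < 8) q
  have hE_v2 : E (fun x => brm m y x ^ 2) ≤ 2 * E3 * (1 / 256) ^ m := by
    refine (E_mono fun x => brm_sq m y x).trans ?_
    rw [E_smul]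
    refine le_trans (mul_le_mul_of_nonneg_left (hmom (2 * m)) (by positivity)) (le_of_eq ?_)
    rw [show 2 * (2 * m) = 4 * m by ring, pow_mul, show (8 : ℝ) ^ 4 = 16 * 256 by norm_num, mul_pow,
      one_div_pow]
    field_simp
  have hE_v4 : E (fun x => brm m y x ^ 4) ≤ 2 * E3 * (1 / 256) ^ m := by
    have h1 : ∀ x, brm m y x ^ 4 ≤ 65536 ^ m * brm (2 * (2 * m)) y x := by
      intro x
      have h2 := brm_sq m y x
      have h3 := brm_sq (2 * m) y x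
      have h4 := pow_le_pow_left₀ (sq_nonneg _) h2 2
      calc brm m y x ^ 4 = (brm m y x ^ 2) ^ 2 := by ring
        _ ≤ (16 ^ m * brm (2 * m) y x) ^ 2 := h4
        _ = 256 ^ m * brm (2 * m) y x ^ 2 := by
            rw [mul_pow, ← pow_mul, mul_comm m 2, pow_mul]
            norm_num
        _ ≤ 256 ^ m * (16 ^ (2 * m) * brm (2 * (2 * m)) y x) :=
            mul_le_mul_of_nonneg_left h3 (by positivity)
        _ = _ := by
            rw [pow_mul, ← mul_assoc, ← mul_pow]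
            norm_num
    refine (E_mono h1).trans ?_
    rw [E_smul]
    refine le_trans (mul_le_mul_of_nonneg_left (hmom (2 * (2 * m))) (by positivity)) (le_of_eq ?_)
    rw [show 2 * (2 * (2 * m)) = 8 * m by ring, pow_mul, show (8 : ℝ) ^ 8 = 65536 * 256 by norm_num,
      mul_pow, one_div_pow]
    field_simp
  obtain ⟨u, hu⟩ : ∃ u : Cube n → ℝ, u = fun x => 2 * 3 ^ (k + 1) * rk H U k x := ⟨_, rfl⟩
  have hr' : (0 : ℝ) < ((r + 1 : ℕ) : ℝ) := by positivity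
  have hE_u2 : E (fun x => u x ^ 2) ≤ ε / 12 := by
    rw [hu]
    refine (E_mono fun x => ty3_sq H U k x).trans ?_
    rw [E_smul]
    refine (mul_le_mul_of_nonneg_left ((Xor.mgf (r + 1) (Nat.succ_pos r) H U
      (fun v => (hread' v).trans (Nat.le_succ r)) 48 (by norm_num)).trans ?_) (by positivity)).trans hk
    rw [hE1]
    refine Real.exp_le_exp.2 (mul_le_mul_of_nonneg_left hK (div_nonneg ?_ hr'.le))
    linarith [one_le_pow₀ (by norm_num : (1 : ℝ) ≤ 1 + 48) (n := r + 1)]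
  have hE_u4 : E (fun x => τ * u x ^ 4) ≤ ε / 12 := by
    rw [E_smul, hu]
    have h1 : E (fun x => (2 * 3 ^ (k + 1) * rk H U k x) ^ 4) ≤ E2 := by
      refine (E_mono fun x => ty3_four H U k x).trans ((Xor.mgf (r + 1) (Nat.succ_pos r) H U
        (fun v => (hread' v).trans (Nat.le_succ r)) 2400 (by norm_num)).trans ?_)
      rw [hE2]
      refine Real.exp_le_exp.2 (mul_le_mul_of_nonneg_left hK (div_nonneg ?_ hr'.le))
      linarith [one_le_pow₀ (by norm_num : (1 : ℝ) ≤ 1 + 2400) (n := r + 1)]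
    refine (mul_le_mul_of_nonneg_left h1 hτp.le).trans (le_of_eq ?_)
    rw [hτ]
    field_simp
  -- the bound
  obtain ⟨Q, hQ⟩ : ∃ Q : Cube n → ℝ, Q = fun x => u x + brm m y x + u x * brm m y x := ⟨_, rfl⟩
  have hQE : (avg fun x => Q x ^ 2) ≤ ε := by
    rw [spb_avg_E]
    have h1 : ∀ x, Q x ^ 2 ≤ 3 * ((u x ^ 2 + brm m y x ^ 2) +
        (τ * u x ^ 4 + (1 / (4 * τ)) * brm m y x ^ 4)) := by
      intro x
      rw [hQ]
      simp only
      have h2 : u x ^ 2 * brm m y x ^ 2 ≤ τ * u x ^ 4 + (1 / (4 * τ)) * brm m y x ^ 4 := by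
        have h3 : 0 ≤ (1 / (4 * τ)) * (2 * τ * u x ^ 2 - brm m y x ^ 2) ^ 2 := by positivity
        have h4 : (1 / (4 * τ)) * (2 * τ * u x ^ 2 - brm m y x ^ 2) ^ 2 =
            τ * u x ^ 4 + (1 / (4 * τ)) * brm m y x ^ 4 - u x ^ 2 * brm m y x ^ 2 := by
          field_simp
          ring
        linarith
      have h5 : (u x + brm m y x + u x * brm m y x) ^ 2 ≤
          3 * (u x ^ 2 + brm m y x ^ 2 + u x ^ 2 * brm m y x ^ 2) := by
        nlinarith [sq_nonneg (u x - brm m y x), sq_nonneg (u x - u x * brm m y x),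
          sq_nonneg (brm m y x - u x * brm m y x)]
      linarith
    refine (E_mono h1).trans ?_
    rw [E_smul, E_add, E_add, E_add, E_smul (1 / (4 * τ))]
    have h5 : 1 / (4 * τ) * E (fun x => brm m y x ^ 4) ≤ ε / 12 := by
      rw [one_div, inv_mul_le_iff₀ (by positivity)]
      linarith
    linarith
  have hu0 : ∀ x, 0 ≤ u x := fun x => by
    rw [hu]
    have := rk_nonneg H U k x
    positivity
  have hck : (0 : ℝ) < 2 * 3 ^ (k + 1) := by positivity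
  have hus : Sp (2 * 3 ^ (k + 1) * ((H.card : ℝ) + 1) ^ (k + 1)) (fun x => ((u x : ℝ) : ℂ)) := by
    have h1 := (rk_sp H U k).smul (((2 * 3 ^ (k + 1) : ℝ)) : ℂ)
    rw [Complex.norm_real, Real.norm_eq_abs, abs_of_pos hck] at h1
    refine h1.of_eq fun x => ?_
    rw [hu]
    push_cast
    ring
  have hvs := brm_sp hb1 hys m
  have hQs : Sp (2 * 3 ^ (k + 1) * ((H.card : ℝ) + 1) ^ (k + 1) + b ^ (2 * m) +
      2 * 3 ^ (k + 1) * ((H.card : ℝ) + 1) ^ (k + 1) * b ^ (2 * m)) (fun x => ((Q x : ℝ) : ℂ)) := by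
    refine ((hus.add hvs).add (hus.mul hvs)).of_eq fun x => ?_
    rw [hQ]
    push_cast
    ring
  have hPs : Sp ((k + 1) * (2 * ((H.card : ℝ) + 1)) ^ k * (2 * m * b ^ (2 * m)))
      (fun x => psk ψ H U k x * bpm m y x) := (psk_sp ψ hψ H U k).mul (bpm_sp hb1 hys m)
  have hclose : ∀ x, ‖ψ (hx H U x) * Complex.exp (Complex.I * (y x : ℂ)) - psk ψ H U k x * bpm m y x‖ ≤
      Q x := by
    intro x
    have h1 : ‖ψ (hx H U x) - psk ψ H U k x‖ ≤ u x := by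
      rw [hu]
      exact psk_close ψ hψ H U k x
    have h2 := bpm_close m y x
    have h3 : ‖Complex.exp (Complex.I * (y x : ℂ))‖ = 1 := by
      rw [mul_comm, Complex.norm_exp_ofReal_mul_I]
    have h4 : ‖psk ψ H U k x‖ ≤ 1 + u x := by
      have : psk ψ H U k x = ψ (hx H U x) - (ψ (hx H U x) - psk ψ H U k x) := by ring
      rw [this]
      exact (norm_sub_le _ _).trans (add_le_add (hψ _) h1)
    have h5 : ψ (hx H U x) * Complex.exp (Complex.I * (y x : ℂ)) - psk ψ H U k x * bpm m y x =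
        (ψ (hx H U x) - psk ψ H U k x) * Complex.exp (Complex.I * (y x : ℂ)) +
        psk ψ H U k x * (Complex.exp (Complex.I * (y x : ℂ)) - bpm m y x) := by ring
    rw [h5]
    refine (norm_add_le _ _).trans ?_
    rw [norm_mul, norm_mul, h3, mul_one]
    have h6 := mul_le_mul h4 h2 (norm_nonneg _) (by linarith [hu0 x])
    rw [hQ]
    simp only
    linarith
  -- the phase of the mean
  obtain ⟨φ, hφ⟩ : ∃ φ : ℂ, φ = Complex.exp (Complex.I *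
    (∑ j ∈ J, a j * (1 / 2) ^ (T j).S.card : ℝ)) := ⟨_, rfl⟩
  have hφ1 : ‖φ‖ = 1 := by rw [hφ, mul_comm, Complex.norm_exp_ofReal_mul_I]
  have hph : ∀ x, ψ (hx H U x) * tj J T z x =
      φ * (ψ (hx H U x) * Complex.exp (Complex.I * (y x : ℂ))) := by
    intro x
    rw [tj_eq J T z hz x]
    have : Complex.exp (Complex.I * (∑ j ∈ J, (z j).arg * (T j).f x : ℝ)) =
        φ * Complex.exp (Complex.I * (y x : ℂ)) := by
      rw [hφ, ← Complex.exp_add, ← mul_add, ← Complex.ofReal_add]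
      congr 3
      rw [hy]
      unfold ctr
      rw [← sum_add_distrib]
      exact sum_congr rfl fun j _ => by rw [ha]; ring
    rw [this]
    ring
  have hnorms := bh_norms k m hJ0 hH0
  rw [← hb] at hnorms
  have hb0 : 0 ≤ b ^ (2 * m) := by positivity
  have hp1 : (0 : ℝ) ≤ 2 * 3 ^ (k + 1) * ((H.card : ℝ) + 1) ^ (k + 1) + b ^ (2 * m) +
      2 * 3 ^ (k + 1) * ((H.card : ℝ) + 1) ^ (k + 1) * b ^ (2 * m) := by positivity
  have hp2 : (0 : ℝ) ≤ (k + 1) * (2 * ((H.card : ℝ) + 1)) ^ k * (2 * m * b ^ (2 * m)) := by positivity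
  refine ⟨fun x => φ * (psk ψ H U k x * bpm m y x), Q, ?_, hQE, ?_, ?_⟩
  · intro x
    rw [hph x, ← mul_sub, norm_mul, hφ1, one_mul]
    exact hclose x
  · have h1 := hPs.smul φ
    rw [hφ1, one_mul] at h1
    exact h1.mono ((le_add_of_nonneg_left hp1).trans hnorms)
  · exact hQs.mono ((le_add_of_nonneg_right hp2).trans hnorms)

end Pool.Agent.MP_ca1109_lc.Xa
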