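import Pool.Agent.MP_ca1109_lc.Xa.MA2
import Pool.Agent.MP_ca1109_lc.Xg.BH

/-!
# The true heavy terms hardly change in a sparse level
-/

namespace Pool.Agent.MP_ca1109_lc.Xa

open Finset Pool.Agent.H66 Pool.Agent.MP_ca1109_lc.Mpg Pool.Agent.MP_ca1109_lc.Agp
open Pool.Agent.MP_ca1109_lc.Dnf (Cube ch one Term)
open Pool.Agent.MP_ca1109_lc.Xp (Sp Bias xo fl Src mv)
open Pool.Agent.MP_ca1109_lc.Xl (Tr pr Rd Fam A1 tm)
open Pool.Agent.MP_ca1109_lc.Xg (hx)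

variable {n : ℕ} {κ μ : Type} [DecidableEq κ] [DecidableEq μ]

/-- A function of the true heavy terms times the product of the phases. -/
noncomputable def hh (T : κ → Term n) (ξ : κ → ℂ) (M : Finset κ) (U : μ → Term n) (H : Finset μ)
    (ψ : Finset μ → ℂ) (x : Cube n) : ℂ := ψ (hx H U x) * pr T ξ M x

theorem hh_norm {T : κ → Term n} {ξ : κ → ℂ} {M : Finset κ} {U : μ → Term n} {H : Finset μ}
    {ψ : Finset μ → ℂ} (hξ : ∀ m ∈ M, ‖ξ m‖ = 1) (hψ : ∀ A, ‖ψ A‖ ≤ 1) (x : Cube n) :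
    ‖hh T ξ M U H ψ x‖ ≤ 1 := by
  unfold hh
  rw [norm_mul, Xl.ml_norm_pr hξ, mul_one]
  exact hψ _

theorem hx_mem {U : μ → Term n} {H : Finset μ} {x : Cube n} {m : μ} :
    m ∈ hx H U x ↔ m ∈ H ∧ Tr (U m).S (U m).a x := by
  classical
  unfold hx
  rw [mem_filter]
  rfl

theorem hv_point (U : μ → Term n) (H : Finset μ) (η : Finset (Fin n)) {x y : Cube n}
    (hxy : ∀ i, i ∉ η → x i = y i) :
    one (hx H U x ≠ hx H U y) ≤ ∑ m ∈ H, one (¬ Disjoint (U m).S η) *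
      (tm (U m).S (U m).a x + tm (U m).S (U m).a y) := by
  classical
  have h0 : ∀ m ∈ H, 0 ≤ one (¬ Disjoint (U m).S η) *
      (tm (U m).S (U m).a x + tm (U m).S (U m).a y) := fun m _ =>
    mul_nonneg (Dnf.one_nonneg _) (add_nonneg (Dnf.one_nonneg _) (Dnf.one_nonneg _))
  by_cases h : hx H U x = hx H U y
  · rw [Dnf.one_false (not_not.2 h)]
    exact sum_nonneg h0
  · rw [Dnf.one_true h]
    have h1 : ∃ m, m ∈ H ∧ ¬ (Tr (U m).S (U m).a x ↔ Tr (U m).S (U m).a y) := by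
      by_contra hc
      refine h (Finset.ext fun m => ?_)
      rw [hx_mem, hx_mem]
      by_cases hm : m ∈ H
      · have h2 : Tr (U m).S (U m).a x ↔ Tr (U m).S (U m).a y := by
          by_contra h3
          exact hc ⟨m, hm, h3⟩
        rw [h2]
      · exact ⟨fun h3 => absurd h3.1 hm, fun h3 => absurd h3.1 hm⟩
    obtain ⟨m, hm, hne⟩ := h1
    have h2 : ¬ Disjoint (U m).S η := by
      intro hd
      refine hne ?_
      unfold Tr
      refine forall_congr' fun i => forall_congr' fun hi => ?_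
      rw [hxy i (Finset.disjoint_left.1 hd hi)]
    refine le_trans ?_ (single_le_sum h0 hm)
    rw [Dnf.one_true h2, one_mul]
    unfold tm
    by_cases h3 : Tr (U m).S (U m).a x
    · rw [Dnf.one_true h3]
      linarith [Dnf.one_nonneg (Tr (U m).S (U m).a y)]
    · have h4 : Tr (U m).S (U m).a y := by
        by_contra h5
        exact hne (iff_of_false h3 h5)
      rw [Dnf.one_true h4]
      linarith [Dnf.one_nonneg (Tr (U m).S (U m).a x)]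

/-- The probability that the true heavy terms change. -/
theorem hv_avg {W : ℕ} {U : μ → Term n} {H : Finset μ} {K : ℝ} (hW : ∀ m ∈ H, (U m).S.card ≤ W)
    (hK : ∑ m ∈ H, (1 / 2 : ℝ) ^ (U m).S.card ≤ K) {p δ : ℝ} (hp : 0 ≤ p) (hδ : 0 ≤ δ)
    {Ω₁ Ω₂ : Type} [Fintype Ω₁] [Nonempty Ω₁] [Fintype Ω₂] [Nonempty Ω₂] {B : ℕ}
    (Z : Ω₂ → Ω₁ → Cube n) (η : Ω₂ → Finset (Fin n)) (h : Ω₂ → Fin n → Fin B)
    (hZ : ∀ ω₂, Bias δ (Z ω₂)) (hη : Src p δ η h) :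
    (avg fun ω₂ => avg fun ω₁ => avg fun u : Fin B → Bool =>
      one (hx H U (mv (Z ω₂ ω₁) (η ω₂) (h ω₂) u) ≠ hx H U (Z ω₂ ω₁))) ≤
      2 * (W * (p + δ)) * (K + δ * H.card) := by
  classical
  have hin : ∀ ω₂, (avg fun ω₁ => avg fun u : Fin B → Bool =>
      one (hx H U (mv (Z ω₂ ω₁) (η ω₂) (h ω₂) u) ≠ hx H U (Z ω₂ ω₁))) ≤
        ∑ m ∈ H, one (¬ Disjoint (U m).S (η ω₂)) * (2 * ((1 / 2) ^ (U m).S.card + δ)) := by
    intro ω₂
    have hswap : ∀ F : Ω₁ → (Fin B → Bool) → ℝ,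
        (avg fun ω₁ => avg fun u => F ω₁ u) = avg fun u => avg fun ω₁ => F ω₁ u := by
      intro F
      unfold avg
      rw [← Finset.sum_div, ← Finset.sum_div, Finset.sum_comm, div_right_comm]
    rw [hswap]
    refine avg_le fun u => ?_
    have h1 : ∀ ω₁, one (hx H U (mv (Z ω₂ ω₁) (η ω₂) (h ω₂) u) ≠ hx H U (Z ω₂ ω₁)) ≤
        ∑ m ∈ H, one (¬ Disjoint (U m).S (η ω₂)) *
          (tm (U m).S (U m).a (mv (Z ω₂ ω₁) (η ω₂) (h ω₂) u) + tm (U m).S (U m).a (Z ω₂ ω₁)) :=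
      fun ω₁ => hv_point U H (η ω₂) fun i hi => by simp [Xp.mv, hi]
    refine (avg_mono h1).trans ?_
    rw [avg_sum]
    refine sum_le_sum fun m _ => ?_
    rw [avg_mul_left, avg_add]
    refine mul_le_mul_of_nonneg_left ?_ (Dnf.one_nonneg _)
    have hb : Bias δ (fun ω₁ => mv (Z ω₂ ω₁) (η ω₂) (h ω₂) u) :=
      (hZ ω₂).xo fun i => decide (i ∈ η ω₂) && u (h ω₂ i)
    have h2 := (abs_le.1 (Xl.avg_tm_bias hδ hb (U m).S (U m).a)).2
    have h3 := (abs_le.1 (Xl.avg_tm_bias hδ (hZ ω₂) (U m).S (U m).a)).2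
    linarith
  refine (avg_mono hin).trans ?_
  rw [avg_sum]
  have hmeet : ∀ m ∈ H, (avg fun ω₂ => one (¬ Disjoint (U m).S (η ω₂))) ≤ W * (p + δ) := by
    intro m hm
    have h6 : ∀ ω₂, one (¬ Disjoint (U m).S (η ω₂)) ≤
        ∑ i ∈ (U m).S, one (({i} : Finset (Fin n)) ⊆ η ω₂) := by
      intro ω₂
      by_cases hd : ¬ Disjoint (U m).S (η ω₂)
      · rw [Dnf.one_true hd]
        obtain ⟨i, hi, hi2⟩ := Finset.not_disjoint_iff.1 hd
        have h7 : one (({i} : Finset (Fin n)) ⊆ η ω₂) = 1 :=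
          Dnf.one_true (Finset.singleton_subset_iff.2 hi2)
        calc (1 : ℝ) = one (({i} : Finset (Fin n)) ⊆ η ω₂) := h7.symm
          _ ≤ _ := Finset.single_le_sum (f := fun i => one (({i} : Finset (Fin n)) ⊆ η ω₂))
            (fun i _ => Dnf.one_nonneg _) hi
      · rw [Dnf.one_false hd]
        exact Finset.sum_nonneg fun i _ => Dnf.one_nonneg _
    refine (avg_mono h6).trans ?_
    rw [avg_sum]
    calc ∑ i ∈ (U m).S, avg (fun ω₂ => one (({i} : Finset (Fin n)) ⊆ η ω₂))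
        ≤ ∑ _i ∈ (U m).S, (p + δ) := by
          refine Finset.sum_le_sum fun i _ => ?_
          have h8 := (abs_le.1 (hη.sub {i})).2
          rw [Finset.card_singleton, pow_one] at h8
          linarith
      _ = (U m).S.card * (p + δ) := by rw [Finset.sum_const, nsmul_eq_mul]
      _ ≤ W * (p + δ) := mul_le_mul_of_nonneg_right (by exact_mod_cast hW m hm) (by positivity)
  have h1 : ∀ m ∈ H, (avg fun ω₂ => one (¬ Disjoint (U m).S (η ω₂)) *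
      (2 * ((1 / 2 : ℝ) ^ (U m).S.card + δ))) ≤
        (W * (p + δ)) * (2 * ((1 / 2) ^ (U m).S.card + δ)) := by
    intro m hm
    have h2 : (fun ω₂ => one (¬ Disjoint (U m).S (η ω₂)) * (2 * ((1 / 2 : ℝ) ^ (U m).S.card + δ))) =
        fun ω₂ => (2 * ((1 / 2 : ℝ) ^ (U m).S.card + δ)) * one (¬ Disjoint (U m).S (η ω₂)) := by
      funext ω₂
      ring
    rw [h2, avg_mul_left, mul_comm]
    exact mul_le_mul_of_nonneg_right (hmeet m hm) (by positivity)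
  refine (sum_le_sum h1).trans ?_
  rw [← mul_sum]
  have h3 : ∑ m ∈ H, 2 * ((1 / 2 : ℝ) ^ (U m).S.card + δ) =
      2 * (∑ m ∈ H, (1 / 2 : ℝ) ^ (U m).S.card) + 2 * (δ * H.card) := by
    rw [← mul_sum, sum_add_distrib, sum_const, nsmul_eq_mul]
    ring
  rw [h3]
  have h4 : (0 : ℝ) ≤ W * (p + δ) := by positivity
  nlinarith

/-- The pointwise change. -/
theorem hh_diff {T : κ → Term n} {ξ : κ → ℂ} {M : Finset κ} {U : μ → Term n} {H : Finset μ}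
    {ψ : Finset μ → ℂ} (hξ : ∀ m ∈ M, ‖ξ m‖ = 1) (hψ : ∀ A, ‖ψ A‖ ≤ 1) (x y : Cube n) :
    ‖hh T ξ M U H ψ x - hh T ξ M U H ψ y‖ ≤
      ‖pr T ξ M x - pr T ξ M y‖ + 2 * one (hx H U x ≠ hx H U y) := by
  by_cases h : hx H U x = hx H U y
  · rw [Dnf.one_false (not_not.2 h), mul_zero, add_zero]
    unfold hh
    rw [h, ← mul_sub, norm_mul]
    exact mul_le_of_le_one_left (norm_nonneg _) (hψ _)
  · rw [Dnf.one_true h, mul_one]
    have h1 := norm_sub_le (hh T ξ M U H ψ x) (hh T ξ M U H ψ y)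
    have h2 := hh_norm (T := T) (M := M) (U := U) (H := H) hξ hψ x
    have h3 := hh_norm (T := T) (M := M) (U := U) (H := H) hξ hψ y
    linarith [norm_nonneg (pr T ξ M x - pr T ξ M y)]

/-- `mh_vb` with heavy terms. -/
theorem mh_vb3 (r : ℕ) (K V : ℝ) {ε : ℝ} (hε : 0 < ε) : ∃ C : ℕ, ∀ (n W : ℕ) {κ μ : Type}
    [DecidableEq κ] [DecidableEq μ] (T : κ → Term n) (M : Finset κ) (ξ : κ → ℂ) (U : μ → Term n)
    (H : Finset μ) (ψ : Finset μ → ℂ), Fam r W T M → 1 ≤ W →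
    (∀ m ∈ M, ‖ξ m‖ = 1) → en T ξ M ≤ V → (∀ m ∈ H, (U m).S.card ≤ W) →
    ∑ m ∈ H, (1 / 2 : ℝ) ^ (U m).S.card ≤ K → (∀ A, ‖ψ A‖ ≤ 1) →
    ∀ p δ : ℝ, 0 < p → p ≤ 1 → C * p * W ≤ 1 → 0 ≤ δ → C * δ * ((n : ℝ) + 1) ^ 2 * 4 ^ W ≤ 1 →
    ∀ {Ω₁ Ω₂ : Type} [Fintype Ω₁] [Nonempty Ω₁] [Fintype Ω₂] [Nonempty Ω₂] {B : ℕ}
      (Z : Ω₂ → Ω₁ → Cube n) (η : Ω₂ → Finset (Fin n)) (h : Ω₂ → Fin n → Fin B),
      (∀ ω₂, Bias δ (Z ω₂)) → Src p δ η h →
      (avg fun ω₂ => avg fun ω₁ => avg fun u : Fin B → Bool =>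
        ‖hh T ξ M U H ψ (mv (Z ω₂ ω₁) (η ω₂) (h ω₂) u) - hh T ξ M U H ψ (Z ω₂ ω₁)‖) ≤ ε := by
  obtain ⟨C₁, hC₁⟩ := mh_vb r V (show 0 < ε / 2 by positivity)
  obtain ⟨C₂, hC₂⟩ := exists_nat_gt (32 * (|K| + 1) / ε)
  refine ⟨C₁ + C₂ + 1, fun n W κ μ _ _ T M ξ U H ψ hM hW hξ hen hHW hHK hψ p δ hp hp1 hpW hδ hδW
    Ω₁ Ω₂ _ _ _ _ B Z η h hZ hS => ?_⟩
  have hn : (0 : ℝ) ≤ n := Nat.cast_nonneg _
  have hW1 : (1 : ℝ) ≤ W := by exact_mod_cast hW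
  have hc1 : (0 : ℝ) ≤ C₁ := Nat.cast_nonneg _
  have hc2 : (0 : ℝ) ≤ C₂ := Nat.cast_nonneg _
  push_cast at hpW hδW
  have h1 : (C₁ : ℝ) * p * W ≤ 1 := le_trans (by gcongr; linarith) hpW
  have h2 : (C₁ : ℝ) * δ * ((n : ℝ) + 1) ^ 2 * 4 ^ W ≤ 1 := le_trans (by gcongr; linarith) hδW
  have e1 := hC₁ n W T M ξ hM hW hξ hen p δ hp hp1 h1 hδ h2 Z η h hZ hS
  have e2 := hv_avg (K := K) hHW hHK hp.le hδ Z η h hZ hS
  have h3 : (avg fun ω₂ => avg fun ω₁ => avg fun u : Fin B → Bool =>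
        ‖hh T ξ M U H ψ (mv (Z ω₂ ω₁) (η ω₂) (h ω₂) u) - hh T ξ M U H ψ (Z ω₂ ω₁)‖) ≤
      (avg fun ω₂ => avg fun ω₁ => avg fun u : Fin B → Bool =>
        ‖pr T ξ M (mv (Z ω₂ ω₁) (η ω₂) (h ω₂) u) - pr T ξ M (Z ω₂ ω₁)‖) +
      2 * avg fun ω₂ => avg fun ω₁ => avg fun u : Fin B → Bool =>
        one (hx H U (mv (Z ω₂ ω₁) (η ω₂) (h ω₂) u) ≠ hx H U (Z ω₂ ω₁)) := by
    rw [← avg_mul_left, ← avg_add]
    refine avg_mono fun ω₂ => ?_
    rw [← avg_mul_left, ← avg_add]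
    refine avg_mono fun ω₁ => ?_
    rw [← avg_mul_left, ← avg_add]
    exact avg_mono fun u => hh_diff hξ hψ _ _
  -- the numbers
  have hHc : (H.card : ℝ) ≤ |K| * 2 ^ W := by
    have h4 : (H.card : ℝ) * (1 / 2) ^ W ≤ |K| := by
      calc (H.card : ℝ) * (1 / 2) ^ W = ∑ _m ∈ H, (1 / 2 : ℝ) ^ W := by
            rw [sum_const, nsmul_eq_mul]
        _ ≤ ∑ m ∈ H, (1 / 2 : ℝ) ^ (U m).S.card := sum_le_sum fun m hm =>
            pow_le_pow_of_le_one (by norm_num) (by norm_num) (hHW m hm)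
        _ ≤ K := hHK
        _ ≤ |K| := le_abs_self K
    have h5 : (H.card : ℝ) = (H.card : ℝ) * (1 / 2) ^ W * 2 ^ W := by
      rw [mul_assoc, ← mul_pow]
      norm_num
    rw [h5]
    exact mul_le_mul_of_nonneg_right h4 (by positivity)
  have h4W : (W : ℝ) ≤ 4 ^ W := by
    have h5 : W < 4 ^ W := Nat.lt_pow_self (by norm_num)
    exact_mod_cast h5.le
  have h2W : (2 : ℝ) ^ W ≤ 4 ^ W := pow_le_pow_left₀ (by norm_num) (by norm_num) W
  have h6 : (1 : ℝ) ≤ ((n : ℝ) + 1) ^ 2 := one_le_pow₀ (by linarith)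
  have hδ2 : δ * 2 ^ W ≤ 1 := by
    refine le_trans ?_ hδW
    calc δ * 2 ^ W ≤ δ * 4 ^ W := mul_le_mul_of_nonneg_left h2W hδ
      _ = 1 * δ * 1 * 4 ^ W := by ring
      _ ≤ ((C₁ : ℝ) + C₂ + 1) * δ * ((n : ℝ) + 1) ^ 2 * 4 ^ W := by gcongr; linarith
  have hpC : C₂ * (p * W) ≤ 1 := by
    refine le_trans ?_ hpW
    calc (C₂ : ℝ) * (p * W) = C₂ * p * W := by ring
      _ ≤ ((C₁ : ℝ) + C₂ + 1) * p * W := by gcongr; linarith
  have hδC : C₂ * (δ * W) ≤ 1 := by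
    refine le_trans ?_ hδW
    calc (C₂ : ℝ) * (δ * W) ≤ C₂ * (δ * 4 ^ W) := by gcongr
      _ = C₂ * δ * 1 * 4 ^ W := by ring
      _ ≤ ((C₁ : ℝ) + C₂ + 1) * δ * ((n : ℝ) + 1) ^ 2 * 4 ^ W := by gcongr; linarith
  have hC₂0 : (0 : ℝ) < C₂ := lt_of_le_of_lt (by positivity) hC₂
  have hC₂' : 32 * (|K| + 1) ≤ C₂ * ε := by
    rw [div_lt_iff₀ hε] at hC₂
    exact hC₂.le
  have h7 : K + δ * H.card ≤ 2 * (|K| + 1) := by
    have h8 : δ * H.card ≤ δ * (|K| * 2 ^ W) := mul_le_mul_of_nonneg_left hHc hδ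
    have h9 : δ * (|K| * 2 ^ W) = |K| * (δ * 2 ^ W) := by ring
    have h10 : |K| * (δ * 2 ^ W) ≤ |K| * 1 := mul_le_mul_of_nonneg_left hδ2 (abs_nonneg _)
    linarith [le_abs_self K]
  have h8 : (W : ℝ) * (p + δ) ≤ 2 / C₂ := by
    rw [le_div_iff₀ hC₂0]
    linarith
  have h9 : 2 * (W * (p + δ)) * (K + δ * H.card) ≤ ε / 4 := by
    calc 2 * (W * (p + δ)) * (K + δ * H.card) ≤ 2 * (W * (p + δ)) * (2 * (|K| + 1)) :=
          mul_le_mul_of_nonneg_left h7 (by positivity)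
      _ = (W * (p + δ)) * (4 * (|K| + 1)) := by ring
      _ ≤ 2 / C₂ * (4 * (|K| + 1)) := mul_le_mul_of_nonneg_right h8 (by positivity)
      _ = (8 * (|K| + 1)) / C₂ := by ring
      _ ≤ ε / 4 := by
        rw [div_le_iff₀ hC₂0]
        linarith
  linarith

/-- The wide heavy terms may be dropped. -/
theorem hv_drop {W : ℕ} {U : μ → Term n} {H : Finset μ} {δ : ℝ} (hδ : 0 ≤ δ) {K : ℝ}
    (hK : (H.card : ℝ) ≤ K) {Ω : Type} [Fintype Ω] [Nonempty Ω] {Y : Ω → Cube n}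
    (hY : Bias δ Y) :
    (avg fun ω => one (hx H U (Y ω) ≠ hx (H.filter fun m => (U m).S.card ≤ W) U (Y ω))) ≤
      K * ((1 / 2) ^ W + δ) := by
  classical
  have h1 : ∀ ω, one (hx H U (Y ω) ≠ hx (H.filter fun m => (U m).S.card ≤ W) U (Y ω)) ≤
      ∑ m ∈ H.filter (fun m => ¬ (U m).S.card ≤ W), tm (U m).S (U m).a (Y ω) := by
    intro ω
    by_cases h : hx H U (Y ω) = hx (H.filter fun m => (U m).S.card ≤ W) U (Y ω)
    · rw [Dnf.one_false (not_not.2 h)]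
      exact sum_nonneg fun m _ => Dnf.one_nonneg _
    · rw [Dnf.one_true h]
      by_contra hc
      rw [not_le] at hc
      refine h (Finset.ext fun m => ?_)
      rw [hx_mem, hx_mem, mem_filter]
      constructor
      · rintro ⟨h2, h3⟩
        refine ⟨⟨h2, ?_⟩, h3⟩
        by_contra h4
        have h5 := single_le_sum (f := fun m => tm (U m).S (U m).a (Y ω))
          (fun m _ => Dnf.one_nonneg _) (mem_filter.2 ⟨h2, h4⟩ :
            m ∈ H.filter fun m => ¬ (U m).S.card ≤ W)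
        have h6 : tm (U m).S (U m).a (Y ω) = 1 := Dnf.one_true h3
        simp only [h6] at h5
        linarith
      · rintro ⟨⟨h2, -⟩, h3⟩
        exact ⟨h2, h3⟩
  refine (avg_mono h1).trans ?_
  have h2 := Xl.ml_sum (T := U) (M := H.filter fun m => ¬ (U m).S.card ≤ W) (W := W)
    (fun m hm => not_le.1 (Finset.mem_filter.1 hm).2) hδ hY
  have h3 : (avg fun ω => ∑ m ∈ H.filter (fun m => ¬ (U m).S.card ≤ W),
      2 * tm (U m).S (U m).a (Y ω)) =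
      2 * avg fun ω => ∑ m ∈ H.filter (fun m => ¬ (U m).S.card ≤ W), tm (U m).S (U m).a (Y ω) := by
    rw [← avg_mul_left]
    congr 1
    funext ω
    rw [mul_sum]
  rw [h3] at h2
  have h4 : ((H.filter fun m => ¬ (U m).S.card ≤ W).card : ℝ) ≤ K :=
    le_trans (by exact_mod_cast Finset.card_le_card (Finset.filter_subset _ _)) hK
  have h5 : (0 : ℝ) ≤ (1 / 2) ^ W + δ := by positivity
  nlinarith

end Pool.Agent.MP_ca1109_lc.Xa
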