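import Pool.Agent.MP_ca1109_lc.Xa.PF
import Pool.Agent.MP_ca1109_lc.Xa.TY3
import Pool.Agent.MP_ca1109_lc.Xa.VB3

/-!
# Small bias fools the product of a part of small mass, heavy terms and phases of bounded energy
-/

namespace Pool.Agent.MP_ca1109_lc.Xa

open Finset Pool.Agent.H66 Pool.Agent.MP_ca1109_lc.Mpg Pool.Agent.MP_ca1109_lc.Agp
open Pool.Agent.MP_ca1109_lc.Dnf (Cube ch one Term)
open Pool.Agent.MP_ca1109_lc.Xp (Sp Bias xo fl Src mv)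
open Pool.Agent.MP_ca1109_lc.Xl (pr Rd Fam A1 lam tm)
open Pool.Agent.MP_ca1109_lc.Xg (hx tj)

/-- The pointwise error of a product. -/
theorem pf_mul' {g h t₁ t₂ : ℂ} {R₁ R₂ : ℝ} (hg : ‖g‖ = 1) (hh : ‖h‖ ≤ 1) (h1 : ‖g - t₁‖ ≤ R₁)
    (h2 : ‖h - t₂‖ ≤ R₂) : ‖g * h - t₁ * t₂‖ ≤ R₁ + (1 + R₁) * R₂ := by
  have h3 : ‖t₁‖ ≤ 1 + R₁ := by
    have := norm_sub_le g (g - t₁)
    rw [sub_sub_cancel] at this
    linarith
  have h4 : 0 ≤ R₂ := (norm_nonneg _).trans h2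
  have h5 : 0 ≤ 1 + R₁ := by
    have := (norm_nonneg _).trans h1
    linarith
  calc ‖g * h - t₁ * t₂‖ = ‖(g - t₁) * h + t₁ * (h - t₂)‖ := by ring_nf
    _ ≤ ‖(g - t₁) * h‖ + ‖t₁ * (h - t₂)‖ := norm_add_le _ _
    _ ≤ ‖g - t₁‖ + ‖t₁‖ * ‖h - t₂‖ := by
        rw [norm_mul, norm_mul]
        exact add_le_add_left (mul_le_of_le_one_right (norm_nonneg _) hh) _
    _ ≤ R₁ + (1 + R₁) * R₂ := add_le_add h1 (mul_le_mul h3 h2 (norm_nonneg _) h5)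

/-- The number of heavy terms. -/
theorem hv_card {n W : ℕ} {μ : Type} {U : μ → Term n} {H : Finset μ} {K : ℝ}
    (hW : ∀ m ∈ H, (U m).S.card ≤ W) (hK : ∑ m ∈ H, (1 / 2 : ℝ) ^ (U m).S.card ≤ K) :
    (H.card : ℝ) ≤ K * 2 ^ W := by
  have h4 : (H.card : ℝ) * (1 / 2) ^ W ≤ K := by
    calc (H.card : ℝ) * (1 / 2) ^ W = ∑ _m ∈ H, (1 / 2 : ℝ) ^ W := by
          rw [sum_const, nsmul_eq_mul]
      _ ≤ ∑ m ∈ H, (1 / 2 : ℝ) ^ (U m).S.card := sum_le_sum fun m hm =>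
          pow_le_pow_of_le_one (by norm_num) (by norm_num) (hW m hm)
      _ ≤ K := hK
  have h5 : (H.card : ℝ) = (H.card : ℝ) * (1 / 2) ^ W * 2 ^ W := by
    rw [mul_assoc, ← mul_pow]
    norm_num
  rw [h5]
  exact mul_le_mul_of_nonneg_right h4 (by positivity)

theorem foolI3 (r : ℕ) (K V : ℝ) {ε : ℝ} (hε : 0 < ε) : ∃ C : ℕ, ∀ (n W a : ℕ)
    {ι κ μ : Type} [DecidableEq ι] [DecidableEq κ] [DecidableEq μ]
    (T : ι → Term n) (M : Finset ι) (ζ : ι → ℂ) (T' : κ → Term n) (M' : Finset κ) (ζ' : κ → ℂ)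
    (U : μ → Term n) (H : Finset μ) (ψ : Finset μ → ℂ),
    Fam r W T M → A1 T M ≤ a → (∀ m ∈ M, ‖ζ m‖ = 1) →
    Fam r W T' M' → (∀ m ∈ M', ‖ζ' m‖ = 1) →
    ∑ m ∈ M', (1 / 2 : ℝ) ^ (T' m).S.card * ‖1 - ζ' m‖ ^ 2 ≤ V →
    Rd r U H → (∀ m ∈ H, (U m).S.card ≤ W) → ∑ m ∈ H, (1 / 2 : ℝ) ^ (U m).S.card ≤ K →
    (∀ A, ‖ψ A‖ ≤ 1) →
    ∀ {Ω : Type} [Fintype Ω] [Nonempty Ω] (Y : Ω → Cube n) (δ : ℝ), 0 ≤ δ → Bias δ Y →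
      ‖(av fun ω => pr T ζ M (Y ω) * hh T' ζ' M' U H ψ (Y ω)) -
        av fun x => pr T ζ M x * hh T' ζ' M' U H ψ x‖ ≤
        ε + δ * 2 ^ (C * (a + W + 1)) * ((n : ℝ) + 1) ^ C := by
  obtain ⟨C₁, hC₁⟩ := caseI2 r (show 0 < ε / 8 by positivity)
  obtain ⟨C₂, hC₂⟩ := taylor3 r K V (show 0 < ε ^ 2 / 1920 by positivity)
  obtain ⟨K₁, hK₁⟩ := exists_nat_ge K
  obtain ⟨P, hP⟩ : ∃ P : ℝ, P = ((C₂ : ℝ) * (r + K₁ + 1)) ^ C₂ := ⟨_, rfl⟩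
  have hP0 : 0 ≤ P := by rw [hP]; positivity
  obtain ⟨C₃, hC₃⟩ := pow_unbounded_of_one_lt (4 * P) (show (1 : ℝ) < 2 by norm_num)
  refine ⟨C₁ + C₂ + C₃, ?_⟩
  intro n W a ι κ μ _ _ _ T M ζ T' M' ζ' U H ψ hM ha hζ hM' hζ' hV hU hUW hUK hψ Ω _ _ Y δ hδ hY
  obtain ⟨t₁, R₁, a1, a2, a3, a4, a5⟩ := hC₁ n W a T M ζ hM ha hζ
  obtain ⟨t₂, R₂, b1, b2, b3, b4⟩ := hC₂ n T' M' ζ' U H ψ hM'.rd hζ' hV hU hUK hψ
  obtain ⟨N₁, hN₁⟩ : ∃ N₁ : ℝ, N₁ = 2 ^ (C₁ * (a + W + 1)) := ⟨_, rfl⟩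
  obtain ⟨N₂, hN₂⟩ : ∃ N₂ : ℝ, N₂ = ((C₂ : ℝ) * ((M'.card : ℝ) + H.card + 1)) ^ C₂ := ⟨_, rfl⟩
  rw [← hN₁] at a4 a5
  rw [← hN₂] at b3 b4
  have hN₁1 : 1 ≤ N₁ := by rw [hN₁]; exact one_le_pow₀ (by norm_num)
  have hM0 : (0 : ℝ) ≤ M'.card := Nat.cast_nonneg _
  have hH0 : (0 : ℝ) ≤ H.card := Nat.cast_nonneg _
  have hN₂1 : 1 ≤ N₂ := by
    rw [hN₂]
    rcases Nat.eq_zero_or_pos C₂ with h | h
    · rw [h, pow_zero]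
    · have h1 : (1 : ℝ) ≤ C₂ := by exact_mod_cast h
      exact one_le_pow₀ (one_le_mul_of_one_le_of_one_le h1 (by linarith))
  -- the error function
  obtain ⟨Q, hQ⟩ : ∃ Q : Cube n → ℝ, Q = fun x => R₁ x + (1 + R₁ x) * R₂ x := ⟨_, rfl⟩
  have c1 : ∀ x, ‖pr T ζ M x * hh T' ζ' M' U H ψ x - t₁ x * t₂ x‖ ≤ Q x := fun x => by
    rw [hQ]
    exact pf_mul' (Xl.ci_norm_pr T ζ M hζ x) (hh_norm hζ' hψ x) (a1 x) (b1 x)
  have c2 : avg Q ≤ ε / 4 := by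
    have d1 : ∀ x, Q x ≤ R₁ x + (ε / 480 * (1 + R₁ x) ^ 2 + 120 / ε * R₂ x ^ 2) := by
      intro x
      rw [hQ]
      have d2 : (1 + R₁ x) * R₂ x ≤ ε / 480 * (1 + R₁ x) ^ 2 + 120 / ε * R₂ x ^ 2 := by
        have d3 : 0 ≤ 120 / ε * (ε / 240 * (1 + R₁ x) - R₂ x) ^ 2 := by positivity
        have d4 : 120 / ε * (ε / 240 * (1 + R₁ x) - R₂ x) ^ 2 =
            ε / 480 * (1 + R₁ x) ^ 2 + 120 / ε * R₂ x ^ 2 - (1 + R₁ x) * R₂ x := by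
          field_simp
          ring
        linarith
      simpa using d2
    calc avg Q ≤ avg fun x => R₁ x + (ε / 480 * (1 + R₁ x) ^ 2 + 120 / ε * R₂ x ^ 2) :=
          avg_mono d1
      _ = avg R₁ + (ε / 480 * (avg fun x => (1 + R₁ x) ^ 2) +
            120 / ε * avg fun x => R₂ x ^ 2) := by
          rw [avg_add R₁ fun x => ε / 480 * (1 + R₁ x) ^ 2 + 120 / ε * R₂ x ^ 2,
            avg_add (fun x => ε / 480 * (1 + R₁ x) ^ 2) fun x => 120 / ε * R₂ x ^ 2,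
            avg_mul_left, avg_mul_left]
      _ ≤ ε / 8 + (ε / 480 * 30 + 120 / ε * (ε ^ 2 / 1920)) := by
          refine add_le_add a2 (add_le_add ?_ ?_)
          · exact mul_le_mul_of_nonneg_left a3 (by positivity)
          · exact mul_le_mul_of_nonneg_left b2 (by positivity)
      _ = ε / 4 := by
          field_simp
          ring
  have c3 : Sp (N₁ * N₂) fun x => t₁ x * t₂ x := Xp.Sp.mul a4 b3
  have c4 : Sp (N₁ + (1 + N₁) * N₂) fun x => ((Q x : ℝ) : ℂ) := by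
    have e1 : Sp (1 + N₁) fun x => 1 + ((R₁ x : ℝ) : ℂ) := by
      have := Xp.Sp.add (Xp.Sp.const (n := n) (1 : ℂ)) a5
      simpa using this
    refine (Xp.Sp.add a5 (Xp.Sp.mul e1 b4)).of_eq fun x => ?_
    rw [hQ]
    push_cast
    ring
  have e1 : ‖(av fun ω => pr T ζ M (Y ω) * hh T' ζ' M' U H ψ (Y ω)) -
      av fun ω => t₁ (Y ω) * t₂ (Y ω)‖ ≤
      avg fun ω => Q (Y ω) := pf_close fun ω => c1 (Y ω)
  have e2 := Xp.fool hδ hY c3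
  have e3 : ‖(av fun x => pr T ζ M x * hh T' ζ' M' U H ψ x) - av fun x => t₁ x * t₂ x‖ ≤ avg Q :=
    pf_close c1
  have e4 := Xp.fool_real hδ hY c4
  have e5 := (abs_le.1 e4).2
  have e6 : ‖(av fun ω => pr T ζ M (Y ω) * hh T' ζ' M' U H ψ (Y ω)) -
      av fun x => pr T ζ M x * hh T' ζ' M' U H ψ x‖ ≤
      ‖(av fun ω => pr T ζ M (Y ω) * hh T' ζ' M' U H ψ (Y ω)) - av fun ω => t₁ (Y ω) * t₂ (Y ω)‖ +
        ‖(av fun ω => t₁ (Y ω) * t₂ (Y ω)) - av fun x => t₁ x * t₂ x‖ +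
        ‖(av fun x => pr T ζ M x * hh T' ζ' M' U H ψ x) - av fun x => t₁ x * t₂ x‖ := by
    generalize (av fun ω => pr T ζ M (Y ω) * hh T' ζ' M' U H ψ (Y ω)) = z₁
    generalize (av fun x => pr T ζ M x * hh T' ζ' M' U H ψ x) = z₂
    generalize (av fun ω => t₁ (Y ω) * t₂ (Y ω)) = z₃
    generalize (av fun x => t₁ x * t₂ x) = z₄
    calc ‖z₁ - z₂‖ = ‖(z₁ - z₃) + (z₃ - z₄) - (z₂ - z₄)‖ := by ring_nf
      _ ≤ _ := (norm_sub_le _ _).trans (add_le_add (norm_add_le _ _) le_rfl)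
  -- the norms
  have f1 : N₂ ≤ P * ((n : ℝ) + 1) ^ C₂ * 2 ^ (W * C₂) := by
    have g1 : (M'.card : ℝ) ≤ r * n := by exact_mod_cast Xl.card_le hM'.ne hM'.rd
    have g2 : (H.card : ℝ) ≤ K₁ * 2 ^ W :=
      (hv_card hUW hUK).trans (mul_le_mul_of_nonneg_right hK₁ (by positivity))
    have hn : (0 : ℝ) ≤ n := Nat.cast_nonneg n
    have hr : (0 : ℝ) ≤ r := Nat.cast_nonneg r
    have hC : (0 : ℝ) ≤ C₂ := Nat.cast_nonneg _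
    have hK0 : (0 : ℝ) ≤ K₁ := Nat.cast_nonneg _
    have h2W : (1 : ℝ) ≤ 2 ^ W := one_le_pow₀ (by norm_num)
    rw [hN₂, hP, pow_mul, ← mul_pow, ← mul_pow]
    refine pow_le_pow_left₀ (by positivity) ?_ _
    have h3 : (r : ℝ) * n + K₁ * 2 ^ W + 1 ≤ (r + K₁ + 1) * ((n : ℝ) + 1) * 2 ^ W := by
      have h4 : (r : ℝ) * n ≤ r * ((n : ℝ) + 1) * 2 ^ W := by
        have h5 : (n : ℝ) ≤ ((n : ℝ) + 1) * 2 ^ W := by nlinarith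
        calc (r : ℝ) * n ≤ r * (((n : ℝ) + 1) * 2 ^ W) := mul_le_mul_of_nonneg_left h5 hr
          _ = _ := by ring
      have h5 : (K₁ : ℝ) * 2 ^ W ≤ K₁ * ((n : ℝ) + 1) * 2 ^ W := by
        have h6 : (1 : ℝ) * 2 ^ W ≤ ((n : ℝ) + 1) * 2 ^ W :=
          mul_le_mul_of_nonneg_right (by linarith) (by positivity)
        calc (K₁ : ℝ) * 2 ^ W = K₁ * (1 * 2 ^ W) := by ring
          _ ≤ K₁ * (((n : ℝ) + 1) * 2 ^ W) := mul_le_mul_of_nonneg_left h6 hK0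
          _ = _ := by ring
      have h6 : (1 : ℝ) ≤ ((n : ℝ) + 1) * 2 ^ W := by nlinarith
      calc (r : ℝ) * n + K₁ * 2 ^ W + 1 ≤ r * ((n : ℝ) + 1) * 2 ^ W + K₁ * ((n : ℝ) + 1) * 2 ^ W +
            ((n : ℝ) + 1) * 2 ^ W := by linarith
        _ = _ := by ring
    calc (C₂ : ℝ) * ((M'.card : ℝ) + H.card + 1) ≤ C₂ * ((r : ℝ) * n + K₁ * 2 ^ W + 1) :=
          mul_le_mul_of_nonneg_left (by linarith) hC
      _ ≤ C₂ * ((r + K₁ + 1) * ((n : ℝ) + 1) * 2 ^ W) := mul_le_mul_of_nonneg_left h3 hC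
      _ = _ := by ring
  have f2 : N₁ * N₂ + (N₁ + (1 + N₁) * N₂) ≤ 4 * (N₁ * N₂) := by nlinarith
  have hn1 : (1 : ℝ) ≤ (n : ℝ) + 1 := by linarith [Nat.cast_nonneg (α := ℝ) n]
  have f3 : 4 * (N₁ * N₂) ≤
      2 ^ ((C₁ + C₂ + C₃) * (a + W + 1)) * ((n : ℝ) + 1) ^ (C₁ + C₂ + C₃) := by
    have g2 : 4 * (N₁ * N₂) ≤ (N₁ * 2 ^ C₃ * 2 ^ (W * C₂)) * ((n : ℝ) + 1) ^ C₂ := by
      have hx : 0 ≤ ((n : ℝ) + 1) ^ C₂ * 2 ^ (W * C₂) := by positivity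
      calc 4 * (N₁ * N₂) ≤ 4 * (N₁ * (P * ((n : ℝ) + 1) ^ C₂ * 2 ^ (W * C₂))) := by
            have := mul_le_mul_of_nonneg_left f1 (show 0 ≤ N₁ by linarith)
            linarith
        _ = N₁ * (4 * P) * (((n : ℝ) + 1) ^ C₂ * 2 ^ (W * C₂)) := by ring
        _ ≤ (N₁ * 2 ^ C₃) * (((n : ℝ) + 1) ^ C₂ * 2 ^ (W * C₂)) :=
            mul_le_mul_of_nonneg_right (mul_le_mul_of_nonneg_left hC₃.le (by linarith)) hx
        _ = _ := by ring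
    refine g2.trans (mul_le_mul ?_ (pow_le_pow_right₀ hn1 (by omega)) (by positivity)
      (by positivity))
    rw [hN₁, ← pow_add, ← pow_add]
    refine pow_le_pow_right₀ (by norm_num) ?_
    have : (C₁ + C₂ + C₃) * (a + W + 1) =
      C₁ * (a + W + 1) + C₃ + W * C₂ + (C₂ * (a + 1) + C₃ * (a + W)) := by ring
    omega
  have f4 : δ * (N₁ * N₂) + δ * (N₁ + (1 + N₁) * N₂) ≤
      δ * 2 ^ ((C₁ + C₂ + C₃) * (a + W + 1)) * ((n : ℝ) + 1) ^ (C₁ + C₂ + C₃) := by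
    rw [← mul_add, mul_assoc]
    exact mul_le_mul_of_nonneg_left (f2.trans f3) hδ
  linarith

end Pool.Agent.MP_ca1109_lc.Xa
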